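import Mathlib

/-!
# Descent right ideals are in general neither self-dual nor trivial source modules: definitions of the statement
-/

set_option autoImplicit false

open Equiv

namespace Pool.H31.MV.DescentIdeal

/-- The set of descents of `σ`, numbered from `1` as in the problem: `i` (with `1 ≤ i ≤ n - 1`) is
a descent when the image of the `i`-th point is bigger than the image of the `(i+1)`-st point; the
`i`-th point is the element `i - 1` of `Fin n`. -/
def descents {n : ℕ} (σ : Perm (Fin n)) : Set ℕ :=
  {i | ∃ (_ : 1 ≤ i) (h : i < n), σ ⟨i, h⟩ < σ ⟨i - 1, by omega⟩}

/-- The proper partial sums `q_1, q_1 + q_2, ..., q_1 + ... + q_{k-1}` of the composition `q`. -/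
def partialSums {n : ℕ} (q : Composition n) : Set ℕ :=
  {s | ∃ j, 1 ≤ j ∧ j < q.length ∧ s = q.sizeUpTo j}

open Classical in
/-- The Solomon descent element `Ξ^q`: the sum of all permutations whose descent set is contained in
the set of partial sums of `q`. -/
noncomputable def descentElement (F : Type*) [Field F] {n : ℕ} (q : Composition n) :
    MonoidAlgebra F (Perm (Fin n)) :=
  ∑ σ ∈ Finset.univ.filter (fun σ : Perm (Fin n) => descents σ ⊆ partialSums q),
    MonoidAlgebra.single σ 1

/-- The module `X^q_F`: the one-sided ideal of the group algebra generated by `Ξ^q`
(a left ideal in the conventions of Mathlib, a right ideal in those of the problem). -/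
noncomputable def descentIdeal (F : Type*) [Field F] {n : ℕ} (q : Composition n) :
    Submodule (MonoidAlgebra F (Perm (Fin n))) (MonoidAlgebra F (Perm (Fin n))) :=
  Submodule.span _ {descentElement F q}

/-- `X^q_F` as a representation of the symmetric group: `g` acts by multiplication with the basis
element `g` of the group algebra. -/
noncomputable def descentRep (F : Type*) [Field F] {n : ℕ} (q : Composition n) :
    Representation F (Perm (Fin n)) (descentIdeal F q) :=
  Representation.ofModule' _

/-- A representation is a trivial source module if it is (isomorphic to) a direct summand of the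
permutation module on some finite `G`-set `Ω`. -/
def IsTrivialSource {F : Type*} [Field F] {G : Type*} [Group G] {V : Type*} [AddCommGroup V]
    [Module F V] (ρ : Representation F G V) : Prop :=
  ∃ (Ω : Type) (_ : Finite Ω) (_ : MulAction G Ω)
    (i : ρ.IntertwiningMap (Representation.ofMulAction F G Ω))
    (r : (Representation.ofMulAction F G Ω).IntertwiningMap ρ), ∀ x : V, r (i x) = x

end Pool.H31.MV.DescentIdeal
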