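import Mathlib
import Pool.Agent.H31.MV.DescentIdealDefs

/-!
# Descent right ideals are in general neither self-dual nor trivial source modules: the proof
-/

set_option autoImplicit false

open Equiv

namespace Pool.H31.MV.DescentIdeal

section sorting

variable {n : ℕ} {α : Type*} [LinearOrder α]

/-- `σ` is increasing on the fibres of `κ` -/
def Inc (κ : Fin n → α) (σ : Perm (Fin n)) : Prop :=
  ∀ i j, i < j → κ i = κ j → σ i < σ j

theorem exists_unique_sort (κ : Fin n → α) (hκ : Monotone κ) (s : Perm (Fin n)) :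
    ∃! ρ : Perm (Fin n), (∀ i, κ (ρ i) = κ i) ∧ Inc κ (s * ρ) := by
  let key : Fin n → α ×ₗ Fin n := fun i => toLex (κ i, s i)
  have hinj : Function.Injective key := by
    intro i j h
    have : (κ i, s i) = (κ j, s j) := toLex.injective h
    exact s.injective (Prod.mk.inj this).2
  have hm : Monotone (key ∘ Tuple.sort key) := Tuple.monotone_sort key
  have hκm : Monotone (κ ∘ Tuple.sort key) := by
    intro i j hij
    have := hm hij
    simp only [Function.comp, key, Prod.Lex.toLex_le_toLex] at this ⊢
    rcases this with h | h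
    · exact h.le
    · exact h.1.le
  have hκeq : κ ∘ Tuple.sort key = κ ∘ (1 : Perm (Fin n)) :=
    Tuple.unique_monotone hκm (by simpa using hκ)
  have hκeq' : ∀ i, κ (Tuple.sort key i) = κ i := fun i => congrFun hκeq i
  refine ⟨Tuple.sort key, ⟨hκeq', ?_⟩, ?_⟩
  · intro i j hij hk
    have h1 := hm hij.le
    simp only [Function.comp, key, Prod.Lex.toLex_le_toLex, hκeq', hk, lt_irrefl, true_and,
      false_or] at h1
    refine lt_of_le_of_ne h1 ?_
    intro h
    exact hij.ne ((Tuple.sort key).injective (s.injective h))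
  · rintro ρ ⟨h1, h2⟩
    have hmρ : Monotone (key ∘ ρ) := by
      intro i j hij
      rcases hij.eq_or_lt with rfl | hij
      · exact le_rfl
      · simp only [Function.comp, key, Prod.Lex.toLex_le_toLex, h1]
        rcases (hκ hij.le).lt_or_eq with h | h
        · exact Or.inl h
        · exact Or.inr ⟨h, (h2 i j hij h).le⟩
    have := Tuple.unique_monotone hmρ hm
    ext i
    have h3 := congrFun this i
    exact congrArg Fin.val (hinj h3)

open Classical in
theorem card_inc_mul (κ : Fin n → α) (hκ : Monotone κ) (H : Perm (Fin n) → Prop)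
    (hH : ∀ τ ρ : Perm (Fin n), H τ → (∀ i, κ (ρ i) = κ i) → H (τ * ρ)) :
    (Finset.univ.filter (fun σ : Perm (Fin n) => H σ ∧ Inc κ σ)).card *
      (Finset.univ.filter (fun ρ : Perm (Fin n) => ∀ i, κ (ρ i) = κ i)).card =
    (Finset.univ.filter (fun σ : Perm (Fin n) => H σ)).card := by
  have hinv : ∀ ρ : Perm (Fin n), (∀ i, κ (ρ i) = κ i) → (∀ i, κ (ρ⁻¹ i) = κ i) := by
    intro ρ h i
    have := h (ρ⁻¹ i)
    simpa using this.symm
  rw [← Finset.card_product]
  refine Finset.card_bij (fun x _ => x.1 * x.2) ?_ ?_ ?_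
  · rintro ⟨σ, ρ⟩ h
    simp only [Finset.mem_product, Finset.mem_filter, Finset.mem_univ, true_and] at h ⊢
    exact hH _ _ h.1.1 h.2
  · rintro ⟨σ, ρ⟩ h ⟨σ', ρ'⟩ h' heq
    simp only [Finset.mem_product, Finset.mem_filter, Finset.mem_univ, true_and] at h h' heq
    obtain ⟨r, -, hr⟩ := exists_unique_sort κ hκ (σ * ρ)
    have e1 : ρ⁻¹ = r := hr _ ⟨hinv _ h.2, by simpa using h.1.2⟩
    have e2 : ρ'⁻¹ = r := hr _ ⟨hinv _ h'.2, by rw [heq]; simpa using h'.1.2⟩
    have e3 : ρ = ρ' := inv_injective (e1.trans e2.symm)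
    subst e3
    have e4 : σ = σ' := mul_right_cancel heq
    rw [e4]
  · intro τ h
    simp only [Finset.mem_filter, Finset.mem_univ, true_and] at h
    obtain ⟨r, ⟨hr1, hr2⟩, -⟩ := exists_unique_sort κ hκ τ
    refine ⟨(τ * r, r⁻¹), ?_, by simp⟩
    simp only [Finset.mem_product, Finset.mem_filter, Finset.mem_univ, true_and]
    exact ⟨⟨hH _ _ h hr1, hr2⟩, hinv _ hr1⟩

end sorting

theorem index_monotone {n : ℕ} (q : Composition n) : Monotone q.index := by
  intro i j hij
  by_contra h
  push Not at h
  have h1 : (j : ℕ) < q.sizeUpTo (q.index j).succ := q.lt_sizeUpTo_index_succ j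
  have h2 : q.sizeUpTo (q.index i) ≤ i := q.sizeUpTo_index_le i
  have h3 : q.sizeUpTo (q.index j).succ ≤ q.sizeUpTo (q.index i) := by
    apply q.monotone_sizeUpTo
    exact h
  have : (i : ℕ) ≤ j := hij
  omega

theorem mem_partialSums_iff {n : ℕ} (q : Composition n) (i : ℕ) (h1 : 1 ≤ i) (h2 : i < n) :
    i ∈ partialSums q ↔ q.index ⟨i - 1, by omega⟩ ≠ q.index ⟨i, h2⟩ := by
  constructor
  · rintro ⟨j, hj1, hj2, rfl⟩ heq
    have a1 := q.lt_sizeUpTo_index_succ ⟨q.sizeUpTo j, h2⟩
    have a2 := q.sizeUpTo_index_le ⟨q.sizeUpTo j - 1, by omega⟩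
    rw [heq] at a2
    simp only [Fin.val_succ] at a1 a2
    have b1 : j ≤ (q.index ⟨q.sizeUpTo j, h2⟩ : ℕ) := by
      by_contra hc
      push Not at hc
      have := q.monotone_sizeUpTo (show (q.index ⟨q.sizeUpTo j, h2⟩ : ℕ) + 1 ≤ j from hc)
      omega
    have := q.monotone_sizeUpTo b1
    omega
  · intro hne
    have hlt : q.index ⟨i - 1, by omega⟩ < q.index ⟨i, h2⟩ :=
      lt_of_le_of_ne (index_monotone q (by simp only [Fin.le_def]; omega)) hne
    refine ⟨(q.index ⟨i - 1, by omega⟩ : ℕ) + 1, by omega, ?_, ?_⟩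
    · have := (q.index ⟨i, h2⟩).2
      have h3 : (q.index ⟨i - 1, by omega⟩ : ℕ) < q.index ⟨i, h2⟩ := hlt
      omega
    · have a1 := q.lt_sizeUpTo_index_succ ⟨i - 1, by omega⟩
      have a2 := q.sizeUpTo_index_le ⟨i, h2⟩
      have h3 : (q.index ⟨i - 1, by omega⟩ : ℕ) + 1 ≤ q.index ⟨i, h2⟩ := hlt
      have := q.monotone_sizeUpTo h3
      simp only [Fin.val_succ] at a1 a2
      omega

theorem descents_subset_iff {n : ℕ} (q : Composition n) (σ : Perm (Fin n)) :
    descents σ ⊆ partialSums q ↔ Inc q.index σ := by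
  constructor
  · intro h
    -- increasing along consecutive positions of a block
    have step : ∀ (i : ℕ) (hi : i + 1 < n), q.index ⟨i, by omega⟩ = q.index ⟨i + 1, hi⟩ →
        σ ⟨i, by omega⟩ < σ ⟨i + 1, hi⟩ := by
      intro i hi heq
      by_contra hc
      push Not at hc
      have hlt : σ ⟨i + 1, hi⟩ < σ ⟨i, by omega⟩ := by
        refine lt_of_le_of_ne hc ?_
        intro he
        have := Fin.ext_iff.mp (σ.injective he)
        simp at this
      have hmem : (i + 1) ∈ partialSums q := h ⟨by omega, hi, by simpa using hlt⟩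
      rw [mem_partialSums_iff q (i + 1) (by omega) hi] at hmem
      exact hmem (by simpa using heq)
    have key : ∀ (d i : ℕ) (hi : i + d + 1 < n),
        q.index ⟨i, by omega⟩ = q.index ⟨i + d + 1, hi⟩ →
        σ ⟨i, by omega⟩ < σ ⟨i + d + 1, hi⟩ := by
      intro d
      induction d with
      | zero => intro i hi heq; exact step i hi heq
      | succ d ih =>
        intro i hi heq
        have m1 : q.index ⟨i, by omega⟩ ≤ q.index ⟨i + d + 1, by omega⟩ :=
          index_monotone q (by simp only [Fin.le_def]; omega)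
        have m2 : q.index ⟨i + d + 1, by omega⟩ ≤ q.index ⟨i + (d + 1) + 1, hi⟩ :=
          index_monotone q (by simp only [Fin.le_def]; omega)
        have e1 : q.index ⟨i, by omega⟩ = q.index ⟨i + d + 1, by omega⟩ :=
          le_antisymm m1 (heq ▸ m2)
        have e2 : q.index ⟨i + d + 1, by omega⟩ = q.index ⟨i + (d + 1) + 1, hi⟩ := e1 ▸ heq
        exact (ih i (by omega) e1).trans (step (i + d + 1) hi e2)
    intro i j hij heq
    have hij' : (i : ℕ) < j := hij
    have hj := j.2
    have e : (⟨i + (j - i - 1) + 1, by omega⟩ : Fin n) = j := Fin.ext (by simp; omega)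
    have := key (j - i - 1) i (by omega) (by rw [e]; exact heq)
    rw [e] at this
    exact this
  · rintro h i ⟨h1, h2, h3⟩
    rw [mem_partialSums_iff q i h1 h2]
    intro heq
    have := h ⟨i - 1, by omega⟩ ⟨i, h2⟩ (by simp only [Fin.lt_def]; omega) heq
    exact absurd this (not_lt.mpr h3.le)

section functional

variable {F : Type*} [Field F] {n : ℕ} {α : Type*} [LinearOrder α]

open Classical in
/-- functional on the group algebra -/
noncomputable def Phi (κ : Fin n → α) (t : Perm (Fin n)) (R : Perm (Fin n) → F) :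
    MonoidAlgebra F (Perm (Fin n)) →ₗ[F] F :=
  (Finsupp.linearCombination F
    (fun τ : Perm (Fin n) => if ∀ i, κ (t⁻¹ (τ i)) = κ i then R τ else 0)) ∘ₗ
    (MonoidAlgebra.coeffLinearEquiv F).toLinearMap

/-- `R` only depends on the relative orders of labels inside `t`-blocks. -/
def Loc (κ : Fin n → α) (t : Perm (Fin n)) (R : Perm (Fin n) → F) : Prop :=
  ∀ τ τ' : Perm (Fin n), (∀ l l', κ (t⁻¹ l) = κ (t⁻¹ l') → (τ⁻¹ l < τ⁻¹ l' ↔ τ'⁻¹ l < τ'⁻¹ l')) →
    R τ = R τ'

open Classical in
theorem Phi_single (κ : Fin n → α) (t : Perm (Fin n)) (R : Perm (Fin n) → F)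
    (τ : Perm (Fin n)) : Phi κ t R (MonoidAlgebra.single τ 1) =
      if ∀ i, κ (t⁻¹ (τ i)) = κ i then R τ else 0 := by
  simp [Phi]

open Classical in
theorem Phi_mul (κ : Fin n → α) (hκ : Monotone κ) (t : Perm (Fin n)) (R : Perm (Fin n) → F)
    (hR : Loc κ t R) (h : Perm (Fin n)) :
    Phi κ t R (MonoidAlgebra.single h 1 *
      ∑ σ ∈ Finset.univ.filter (fun σ : Perm (Fin n) => Inc κ σ), MonoidAlgebra.single σ 1)
      = R h := by
  obtain ⟨ρ, ⟨hρ1, hρ2⟩, huniq⟩ := exists_unique_sort κ hκ (h⁻¹ * t)
  rw [Finset.mul_sum, map_sum]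
  simp only [MonoidAlgebra.single_mul_single, mul_one, Phi_single]
  have hmem : (h⁻¹ * t * ρ) ∈ Finset.univ.filter (fun σ : Perm (Fin n) => Inc κ σ) := by
    simpa using hρ2
  rw [Finset.sum_eq_single_of_mem _ hmem]
  · have h1 : ∀ i, κ (t⁻¹ ((h * (h⁻¹ * t * ρ)) i)) = κ i := by
      intro i
      have : t⁻¹ ((h * (h⁻¹ * t * ρ)) i) = ρ i := by simp
      rw [this, hρ1]
    rw [if_pos h1]
    apply hR
    intro l l' hll
    have e : h * (h⁻¹ * t * ρ) = t * ρ := by group
    rw [e]
    have ex : ∀ l, h⁻¹ l = (h⁻¹ * t * ρ) ((t * ρ)⁻¹ l) := by intro l; simp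
    have kx : ∀ l, κ ((t * ρ)⁻¹ l) = κ (t⁻¹ l) := by
      intro l
      have := hρ1 ((t * ρ)⁻¹ l)
      rw [← this]
      simp
    have hk : κ ((t * ρ)⁻¹ l) = κ ((t * ρ)⁻¹ l') := by rw [kx, kx, hll]
    rw [ex l, ex l']
    constructor
    · intro hlt
      exact hρ2 _ _ hlt hk
    · intro hlt
      rcases lt_trichotomy ((t * ρ)⁻¹ l) ((t * ρ)⁻¹ l') with h3 | h3 | h3
      · exact h3
      · rw [h3] at hlt
        exact absurd hlt (lt_irrefl _)
      · exact absurd (hρ2 _ _ h3 hk.symm) (not_lt.mpr hlt.le)
  · intro σ hσ hne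
    rw [if_neg]
    intro hc
    apply hne
    have := huniq (t⁻¹ * h * σ) ⟨by intro i; simpa using hc i, by
      have e : h⁻¹ * t * (t⁻¹ * h * σ) = σ := by group
      rw [e]
      simpa using hσ⟩
    rw [← this]
    group

end functional

section counting

variable {n : ℕ} (q : Composition n) (p : ℕ)

theorem card_fiber_lt (j : Fin q.length) (B : ℕ) (hB : B ≤ q.blocksFun j) :
    (Finset.univ.filter (fun l : Fin n => q.index l = j ∧ (q.invEmbedding l : ℕ) < B)).card = B := by
  classical
  have : (Finset.univ.filter (fun l : Fin n => q.index l = j ∧ (q.invEmbedding l : ℕ) < B)).card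
      = (Finset.univ : Finset (Fin B)).card := by
    symm
    refine Finset.card_bij (fun x _ => q.embedding j ⟨x, lt_of_lt_of_le x.2 hB⟩) ?_ ?_ ?_
    · intro x _
      simp only [Finset.mem_filter, Finset.mem_univ, true_and, Composition.index_embedding]
      rw [Composition.coe_invEmbedding, Composition.index_embedding, Composition.coe_embedding]
      have := x.2
      simp
    · intro x _ y _ h
      have := (q.embedding j).injective h
      rw [Fin.mk.injEq] at this
      exact Fin.ext this
    · intro l hl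
      simp only [Finset.mem_filter, Finset.mem_univ, true_and] at hl
      obtain ⟨rfl, hl2⟩ := hl
      exact ⟨⟨q.invEmbedding l, hl2⟩, Finset.mem_univ _, q.embedding_comp_inv l⟩
  rw [this, Finset.card_univ, Fintype.card_fin]

theorem card_fiber (j : Fin q.length) :
    (Finset.univ.filter (fun l : Fin n => q.index l = j)).card = q.blocksFun j := by
  have := card_fiber_lt q j (q.blocksFun j) le_rfl
  rw [← this]
  congr 1
  ext l
  simp only [Finset.mem_filter, Finset.mem_univ, true_and]
  constructor
  · intro h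
    subst h
    exact ⟨rfl, (q.invEmbedding l).2⟩
  · exact fun h => h.1

/-- labels in the `p`-divisible initial part of their block -/
def Low (l : Fin n) : Prop := (q.invEmbedding l : ℕ) < p * (q.blocksFun (q.index l) / p)

instance (l : Fin n) : Decidable (Low q p l) := by unfold Low; infer_instance

theorem card_low_fiber (j : Fin q.length) :
    (Finset.univ.filter (fun l : Fin n => q.index l = j ∧ Low q p l)).card
      = p * (q.blocksFun j / p) := by
  rw [← card_fiber_lt q j (p * (q.blocksFun j / p)) (Nat.mul_div_le _ _)]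
  congr 1
  ext l
  simp only [Finset.mem_filter, Finset.mem_univ, true_and]
  unfold Low
  constructor
  · rintro ⟨rfl, h⟩
    exact ⟨rfl, h⟩
  · rintro ⟨rfl, h⟩
    exact ⟨rfl, h⟩

theorem card_low :
    (Finset.univ.filter (fun l : Fin n => Low q p l)).card
      = ∑ j, p * (q.blocksFun j / p) := by
  rw [Finset.card_eq_sum_card_fiberwise (f := q.index) (t := Finset.univ) (by simp)]
  refine Finset.sum_congr rfl ?_
  intro j _
  rw [← card_low_fiber q p j, Finset.filter_filter]
  congr 1
  ext l
  simp [and_comm]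

theorem card_block_perms :
    (Finset.univ.filter (fun ρ : Perm (Fin n) => ∀ i, q.index (ρ i) = q.index i)).card
      = ∏ j, (q.blocksFun j).factorial := by
  classical
  have h := DomMulAct.stabilizer_card q.index
  rw [Fintype.card_subtype] at h
  have h2 : (Finset.univ.filter (fun ρ : Perm (Fin n) => ∀ i, q.index (ρ i) = q.index i)) =
      Finset.univ.filter (fun g : Perm (Fin n) => q.index ∘ g = q.index) := by
    ext ρ
    simp [funext_iff]
  rw [h2, h]
  refine Finset.prod_congr rfl ?_
  intro j _
  rw [Fintype.card_subtype, card_fiber]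

/-- refined block labelling -/
def fine (l : Fin n) : ℕ := if Low q p l then q.sizeUpTo (q.index l) else l

theorem fine_le (l : Fin n) : fine q p l ≤ l := by
  unfold fine
  split
  · exact q.sizeUpTo_index_le l
  · exact le_rfl

theorem le_fine (l : Fin n) : q.sizeUpTo (q.index l) ≤ fine q p l := by
  unfold fine
  split
  · exact le_rfl
  · exact q.sizeUpTo_index_le l

theorem low_of_le {l l' : Fin n} (hi : q.index l = q.index l') (hle : l ≤ l')
    (h : Low q p l') : Low q p l := by
  unfold Low at *
  rw [Composition.coe_invEmbedding] at *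
  rw [hi]
  have : (l : ℕ) ≤ l' := hle
  omega

theorem fine_monotone : Monotone (fine q p) := by
  intro l l' hle
  rcases (index_monotone q hle).lt_or_eq with h | h
  · have h1 := fine_le q p l
    have h2 := le_fine q p l'
    have h3 := q.lt_sizeUpTo_index_succ l
    rw [Fin.val_succ] at h3
    have h4 : (q.index l : ℕ) + 1 ≤ q.index l' := h
    have := q.monotone_sizeUpTo h4
    omega
  · unfold fine
    by_cases h1 : Low q p l
    · by_cases h2 : Low q p l'
      · simp [h1, h2, h]
      · simp only [h1, h2, if_true, if_false]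
        exact (q.sizeUpTo_index_le l).trans hle
    · by_cases h2 : Low q p l'
      · exact absurd (low_of_le q p h hle h2) h1
      · simp only [h1, h2, if_false]
        exact hle

theorem index_eq_of_start {l l' : Fin n} (h : q.sizeUpTo (q.index l) = (l' : ℕ)) :
    q.index l = q.index l' := by
  have h1 := q.sizeUpTo_index_le l'
  have h2 := q.lt_sizeUpTo_index_succ l'
  have h3 := q.sizeUpTo_index_le l
  have h4 := q.lt_sizeUpTo_index_succ l
  rw [Fin.val_succ] at h2 h4
  have hle : l' ≤ l := by
    rw [Fin.le_def]; omega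
  have h5 : (q.index l' : ℕ) ≤ q.index l := index_monotone q hle
  apply Fin.ext
  by_contra hne
  have h6 : (q.index l' : ℕ) + 1 ≤ q.index l := by omega
  have := q.monotone_sizeUpTo h6
  omega

theorem fine_eq_iff (l l' : Fin n) :
    fine q p l = fine q p l' ↔
      (if Low q p l then Sum.inl (q.index l) else Sum.inr l : Fin q.length ⊕ Fin n) =
      (if Low q p l' then Sum.inl (q.index l') else Sum.inr l') := by
  have key : ∀ l l' : Fin n, Low q p l → ¬ Low q p l' → fine q p l ≠ fine q p l' := by
    intro l l' h1 h2 heq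
    unfold fine at heq
    simp only [h1, h2, if_true, if_false] at heq
    have hidx := index_eq_of_start q heq
    apply h2
    unfold Low at *
    rw [Composition.coe_invEmbedding] at *
    rw [← hidx]
    omega
  by_cases h1 : Low q p l
  · by_cases h2 : Low q p l'
    · simp only [h1, h2, if_true, fine, Sum.inl.injEq]
      constructor
      · intro h
        have a1 : (q.index l : ℕ) ≤ q.index l' := by
          by_contra hc
          push Not at hc
          have := q.sizeUpTo_strict_mono (q.index l').2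
          have h3 := q.monotone_sizeUpTo (show (q.index l' : ℕ) + 1 ≤ q.index l from hc)
          omega
        have a2 : (q.index l' : ℕ) ≤ q.index l := by
          by_contra hc
          push Not at hc
          have := q.sizeUpTo_strict_mono (q.index l).2
          have h3 := q.monotone_sizeUpTo (show (q.index l : ℕ) + 1 ≤ q.index l' from hc)
          omega
        exact Fin.ext (le_antisymm a1 a2)
      · intro h
        rw [h]
    · have := key l l' h1 h2
      simp [h1, h2, this]
  · by_cases h2 : Low q p l'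
    · have := key l' l h2 h1
      simp [h1, h2, this.symm]
    · simp [h1, h2, fine, Fin.ext_iff]

theorem card_fine_perms :
    (Finset.univ.filter (fun ρ : Perm (Fin n) => ∀ i, fine q p (ρ i) = fine q p i)).card
      = ∏ j, (p * (q.blocksFun j / p)).factorial := by
  classical
  let g : Fin n → Fin q.length ⊕ Fin n := fun l =>
    if Low q p l then Sum.inl (q.index l) else Sum.inr l
  have h := DomMulAct.stabilizer_card g
  rw [Fintype.card_subtype] at h
  have h2 : (Finset.univ.filter (fun ρ : Perm (Fin n) => ∀ i, fine q p (ρ i) = fine q p i)) =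
      Finset.univ.filter (fun σ : Perm (Fin n) => g ∘ σ = g) := by
    ext ρ
    simp only [Finset.mem_filter, Finset.mem_univ, true_and, funext_iff, fine_eq_iff,
      Function.comp, g]
  rw [h2, h, Fintype.prod_sum_type]
  have h3 : ∀ x : Fin n, (Fintype.card {a // g a = Sum.inr x}).factorial = 1 := by
    intro x
    have : Fintype.card {a // g a = Sum.inr x} ≤ 1 := by
      rw [Fintype.card_le_one_iff_subsingleton]
      constructor
      rintro ⟨a, ha⟩ ⟨b, hb⟩
      have h1 : ∀ a, g a = Sum.inr x → a = x := by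
        intro a ha
        simp only [g] at ha
        split at ha
        · simp at ha
        · exact Sum.inr.inj ha
      exact Subtype.ext ((h1 a ha).trans (h1 b hb).symm)
    exact Nat.factorial_eq_one.mpr this
  simp only [h3, Finset.prod_const_one, mul_one]
  refine Finset.prod_congr rfl ?_
  intro j _
  rw [Fintype.card_subtype, ← card_low_fiber q p j]
  congr 2
  ext l
  simp only [Finset.mem_filter, Finset.mem_univ, true_and, g]
  by_cases h1 : Low q p l
  · simp [h1]
  · simp [h1]

/-- `m! = (p * (m / p))! * k` with `k` prime to `p` -/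
theorem factorial_low (hp : p.Prime) (m : ℕ) :
    ∃ k, m.factorial = (p * (m / p)).factorial * k ∧ ¬ p ∣ k := by
  have key : ∀ r, r < p → ∀ a, ∃ k, (p * a + r).factorial = (p * a).factorial * k ∧ ¬ p ∣ k := by
    intro r
    induction r with
    | zero => intro _ a; exact ⟨1, by simp, hp.one_lt.ne' ∘ Nat.dvd_one.mp⟩
    | succ r ih =>
      intro hr a
      obtain ⟨k, hk1, hk2⟩ := ih (by omega) a
      refine ⟨(p * a + r + 1) * k, ?_, ?_⟩
      · rw [← Nat.add_assoc, Nat.factorial_succ, hk1]
        ring
      · intro hd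
        rcases hp.dvd_mul.mp hd with h | h
        · rw [Nat.add_assoc] at h
          have := (Nat.dvd_add_right (Dvd.intro a rfl)).mp h
          have := Nat.le_of_dvd (by omega) this
          omega
        · exact hk2 h
  have h1 := key (m % p) (Nat.mod_lt _ hp.pos) (m / p)
  rwa [Nat.div_add_mod] at h1

theorem exists_prod_factorial (hp : p.Prime) :
    ∃ K, (∏ j, (q.blocksFun j).factorial) = (∏ j, (p * (q.blocksFun j / p)).factorial) * K ∧
      ¬ p ∣ K := by
  choose k hk1 hk2 using fun m => factorial_low p hp m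
  refine ⟨∏ j, k (q.blocksFun j), ?_, ?_⟩
  · rw [← Finset.prod_mul_distrib]
    exact Finset.prod_congr rfl (fun j _ => hk1 _)
  · rw [hp.prime.dvd_finsetProd_iff]
    rintro ⟨j, _, h⟩
    exact hk2 _ h

theorem dvd_card_of_carry (hp : p.Prime)
    (hcarry : ∑ j, q.blocksFun j / p < n / p) (S : ℕ)
    (hS : S * ∏ j, (q.blocksFun j).factorial = n.factorial) : p ∣ S := by
  obtain ⟨K, hK1, hK2⟩ := exists_prod_factorial q p hp
  set c := ∑ j, q.blocksFun j / p with hc
  have h1 : (∏ j, (p * (q.blocksFun j / p)).factorial) ∣ (p * c).factorial := by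
    have := Nat.prod_factorial_dvd_factorial_sum Finset.univ
      (fun j => p * (q.blocksFun j / p))
    rwa [← Finset.mul_sum] at this
  have h2 : (p * c).factorial * (p * (c + 1)) ∣ n.factorial := by
    have h3 : p * (c + 1) ≤ n := by
      calc p * (c + 1) ≤ p * (n / p) := Nat.mul_le_mul_left _ hcarry
        _ ≤ n := Nat.mul_div_le _ _
    have h4 : (p * (c + 1)).factorial ∣ n.factorial := Nat.factorial_dvd_factorial h3
    refine dvd_trans ?_ h4
    have h5 : p * (c + 1) = (p * (c + 1) - 1) + 1 := by
      have : 0 < p * (c + 1) := Nat.mul_pos hp.pos (Nat.succ_pos c)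
      omega
    rw [h5, Nat.factorial_succ, mul_comm, ← h5]
    refine Nat.mul_dvd_mul_left _ ?_
    apply Nat.factorial_dvd_factorial
    have : p * (c + 1) = p * c + p := by ring
    have := hp.two_le
    omega
  obtain ⟨u, hu⟩ := h1
  obtain ⟨w, hw⟩ := h2
  have hpos : 0 < ∏ j, (p * (q.blocksFun j / p)).factorial :=
    Finset.prod_pos (fun j _ => Nat.factorial_pos _)
  have h6 : S * K = p * (u * (c + 1) * w) := by
    apply Nat.eq_of_mul_eq_mul_left hpos
    calc (∏ j, (p * (q.blocksFun j / p)).factorial) * (S * K)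
        = S * ((∏ j, (p * (q.blocksFun j / p)).factorial) * K) := by ring
      _ = n.factorial := by rw [← hK1, hS]
      _ = _ := by rw [hw, hu]; ring
  have h7 : p ∣ S * K := ⟨_, h6⟩
  exact (hp.dvd_mul.mp h7).resolve_right hK2

end counting

section abstractRep

variable {F : Type*} [Field F] {G : Type*} [Group G] {V : Type*} [AddCommGroup V] [Module F V]

theorem sum_orbit_zero [Fintype G] {Ω : Type*} [Fintype Ω] [MulAction G Ω]
    (E z : Ω → F) (hE : ∀ (g : G) ω, E (g • ω) = E ω)
    (hz : ∀ ω, ∑ g : G, z (g • ω) = 0)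
    (hEz : ∀ ω, (Nat.card (MulAction.stabilizer G ω) : F) = 0 → E ω = 0) :
    ∑ ω, E ω * z ω = 0 := by
  classical
  have := Finset.sum_fiberwise (s := (Finset.univ : Finset Ω))
    (g := fun ω => (Quotient.mk (MulAction.orbitRel G Ω) ω)) (f := fun ω => E ω * z ω)
  rw [← this]
  refine Finset.sum_eq_zero ?_
  intro q _
  induction q using Quotient.inductionOn with
  | h ω₀ =>
  have hset : (Finset.univ.filter (fun ω : Ω =>
      (Quotient.mk (MulAction.orbitRel G Ω) ω) = Quotient.mk (MulAction.orbitRel G Ω) ω₀))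
      = Finset.univ.filter (fun ω => ω ∈ MulAction.orbit G ω₀) := by
    ext ω
    simp only [Finset.mem_filter, Finset.mem_univ, true_and]
    rw [Quotient.eq]
    rfl
  rw [hset]
  by_cases hs : (Nat.card (MulAction.stabilizer G ω₀) : F) = 0
  · refine Finset.sum_eq_zero ?_
    intro ω hω
    simp only [Finset.mem_filter, Finset.mem_univ, true_and] at hω
    obtain ⟨g, rfl⟩ := hω
    simp only
    rw [hE, hEz _ hs, zero_mul]
  · have key : ∑ g : G, E (g • ω₀) * z (g • ω₀) =
        (Nat.card (MulAction.stabilizer G ω₀) : F) *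
          ∑ ω ∈ Finset.univ.filter (fun ω => ω ∈ MulAction.orbit G ω₀), E ω * z ω := by
      have h1 := (Finset.sum_fiberwise_of_maps_to (s := (Finset.univ : Finset G))
        (t := Finset.univ.filter (fun ω => ω ∈ MulAction.orbit G ω₀))
        (g := fun g : G => g • ω₀) (f := fun g => E (g • ω₀) * z (g • ω₀)) (by
          intro g _
          simp [MulAction.mem_orbit_iff])).symm
      rw [h1, Finset.mul_sum]
      refine Finset.sum_congr rfl ?_
      intro ω hω
      simp only [Finset.mem_filter, Finset.mem_univ, true_and] at hω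
      obtain ⟨g₁, rfl⟩ := hω
      simp only
      have h2 : ∀ g ∈ Finset.univ.filter (fun g : G => g • ω₀ = g₁ • ω₀),
          E (g • ω₀) * z (g • ω₀) = E (g₁ • ω₀) * z (g₁ • ω₀) := by
        intro g hg
        simp only [Finset.mem_filter, Finset.mem_univ, true_and] at hg
        rw [hg]
      rw [Finset.sum_congr rfl h2, Finset.sum_const, nsmul_eq_mul]
      congr 2
      rw [Nat.card_eq_fintype_card, Fintype.card_subtype]
      refine Finset.card_bij (fun g _ => g₁⁻¹ * g) ?_ ?_ ?_
      · intro g hg
        simp only [Finset.mem_filter, Finset.mem_univ, true_and] at hg ⊢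
        rw [MulAction.mem_stabilizer_iff, mul_smul, hg, inv_smul_smul]
      · intro g _ g' _ h
        exact mul_left_cancel h
      · intro g hg
        simp only [Finset.mem_filter, Finset.mem_univ, true_and, MulAction.mem_stabilizer_iff]
          at hg
        refine ⟨g₁ * g, ?_, by simp⟩
        simp only [Finset.mem_filter, Finset.mem_univ, true_and]
        rw [mul_smul, hg]
    have h3 : ∑ g : G, E (g • ω₀) * z (g • ω₀) = 0 := by
      simp only [hE]
      rw [← Finset.mul_sum, hz, mul_zero]
    rw [h3] at key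
    exact (mul_eq_zero.mp key.symm).resolve_left hs

theorem not_trivialSource [Fintype G] (p : ℕ) [hp : Fact p.Prime] [CharP F p]
    (ρ : Representation F G V) (ξ : V)
    (hξ : Submodule.span F (Set.range (fun g => ρ g ξ)) = ⊤)
    (ε : V →ₗ[F] F) (hε : ∀ g, ε (ρ g ξ) = 1)
    (H1 : ∀ g : G, orderOf g = p → ∃ φ : V →ₗ[F] F,
      ∀ h : G, ∑ i ∈ Finset.range p, φ (ρ (g ^ i) (ρ h ξ)) = 1)
    (H2 : ∑ g : G, ρ g ξ = 0) : ¬ IsTrivialSource ρ := by
  classical
  have hext : ∀ L₁ L₂ : V →ₗ[F] F, (∀ g, L₁ (ρ g ξ) = L₂ (ρ g ξ)) → L₁ = L₂ := by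
    intro L₁ L₂ h
    refine LinearMap.ext_on_range (v := fun g => ρ g ξ) hξ ?_
    exact h
  have hεinv : ∀ g y, ε (ρ g y) = ε y := by
    intro g y
    have : ε ∘ₗ (ρ g) = ε := by
      apply hext
      intro h
      simp only [LinearMap.comp_apply]
      rw [← Module.End.mul_apply, ← map_mul, hε, hε]
    exact congrArg (fun L => L y) this
  have H1' : ∀ g : G, orderOf g = p → ∃ φ : V →ₗ[F] F,
      ∀ y, ∑ i ∈ Finset.range p, φ (ρ (g ^ i) y) = ε y := by
    intro g hg
    obtain ⟨φ, hφ⟩ := H1 g hg
    refine ⟨φ, ?_⟩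
    intro y
    have : ∑ i ∈ Finset.range p, φ ∘ₗ (ρ (g ^ i)) = ε := by
      apply hext
      intro h
      rw [LinearMap.sum_apply, hε]
      exact hφ h
    have := congrArg (fun L => L y) this
    simpa [LinearMap.sum_apply] using this
  rintro ⟨Ω, hΩ, hact, i, r, hri⟩
  have : Fintype Ω := Fintype.ofFinite Ω
  set E : Ω → F := fun ω => ε (r (MonoidAlgebra.single ω 1)) with hEdef
  set z : Ω → F := fun ω => (i ξ).coeff ω with hzdef
  have hrsingle : ∀ (g : G) ω, r (MonoidAlgebra.single (g • ω) 1) =
      ρ g (r (MonoidAlgebra.single ω 1)) := by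
    intro g ω
    rw [← Representation.IntertwiningMap.isIntertwining, Representation.ofMulAction_single]
  have hE : ∀ (g : G) ω, E (g • ω) = E ω := by
    intro g ω
    simp only [hEdef, hrsingle, hεinv]
  have hE0 : ∀ ω, (Nat.card (MulAction.stabilizer G ω) : F) = 0 → E ω = 0 := by
    intro ω hω
    rw [CharP.cast_eq_zero_iff F p] at hω
    obtain ⟨s, hs⟩ := exists_prime_orderOf_dvd_card' (G := MulAction.stabilizer G ω) p hω
    have hs' : orderOf (s : G) = p := by rw [Subgroup.orderOf_coe]; exact hs
    obtain ⟨φ, hφ⟩ := H1' s hs'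
    have h1 := hφ (r (MonoidAlgebra.single ω 1))
    have h2 : ∀ k : ℕ, ρ ((s : G) ^ k) (r (MonoidAlgebra.single ω 1)) =
        r (MonoidAlgebra.single ω 1) := by
      intro k
      rw [← hrsingle]
      have : ((s : G) ^ k) • ω = ω := by
        have := (s ^ k).2
        rw [MulAction.mem_stabilizer_iff] at this
        simpa using this
      rw [this]
    simp only [h2, Finset.sum_const, Finset.card_range, nsmul_eq_mul, CharP.cast_eq_zero,
      zero_mul] at h1
    exact h1.symm
  have hz : ∀ ω, ∑ g : G, z (g • ω) = 0 := by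
    intro ω
    have h1 : i (∑ g : G, ρ g ξ) = 0 := by rw [H2]; exact map_zero i
    rw [map_sum] at h1
    have h2 : ∀ g : G, i (ρ g ξ) = Representation.ofMulAction F G Ω g (i ξ) := fun g =>
      Representation.IntertwiningMap.isIntertwining _ _ i g ξ
    simp only [h2] at h1
    have h3 := congrArg (fun w => MonoidAlgebra.coeff w ω) h1
    simp only [MonoidAlgebra.coeff_sum, Finsupp.finsetSum_apply,
      Representation.coeff_ofMulAction, MonoidAlgebra.coeff_zero, Finsupp.coe_zero,
      Pi.zero_apply] at h3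
    rw [← h3]
    exact (Equiv.sum_comp (Equiv.inv G) (fun g => z (g • ω))).symm
  have hfin := sum_orbit_zero (G := G) E z hE hz hE0
  have hsum : ε (r (i ξ)) = ∑ ω, E ω * z ω := by
    have h1 : i ξ = ∑ ω, z ω • (MonoidAlgebra.single ω (1 : F)) := by
      ext ω
      simp [MonoidAlgebra.coeff_sum, hzdef]
    conv_lhs => rw [h1]
    rw [map_sum, map_sum]
    refine Finset.sum_congr rfl ?_
    intro ω _
    rw [map_smul, map_smul, smul_eq_mul, mul_comm]
  rw [hri, hfin] at hsum
  have := hε 1
  rw [map_one, Module.End.one_apply, hsum] at this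
  exact zero_ne_one this

theorem not_selfDual (p : ℕ) [CharP F p]
    (ρ : Representation F G V) (ξ : V)
    (hξ : Submodule.span F (Set.range (fun g => ρ g ξ)) = ⊤)
    (ε : V →ₗ[F] F) (hε : ∀ g, ε (ρ g ξ) = 1)
    (c : G) (hc : c ^ p = 1)
    (φ : V →ₗ[F] F) (hφ : ∀ h : G, ∑ i ∈ Finset.range p, φ (ρ (c ^ i) (ρ h ξ)) = 1)
    (f : V →ₗ[F] F) (hf : ∀ h : G, f (ρ c (ρ h ξ)) = f (ρ h ξ))
    (hf' : ∀ v : V, (∀ g, ρ g v = v) → v ≠ 0 → f v ≠ 0) :
    ¬ Nonempty (ρ.Equiv ρ.dual) := by
  rintro ⟨e⟩
  have hext : ∀ L₁ L₂ : V →ₗ[F] F, (∀ g, L₁ (ρ g ξ) = L₂ (ρ g ξ)) → L₁ = L₂ := by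
    intro L₁ L₂ h
    refine LinearMap.ext_on_range (v := fun g => ρ g ξ) hξ ?_
    exact h
  have hεinv : ∀ g, ε ∘ₗ (ρ g) = ε := by
    intro g
    apply hext
    intro h
    simp only [LinearMap.comp_apply]
    rw [← Module.End.mul_apply, ← map_mul, hε, hε]
  have hφ' : ∑ i ∈ Finset.range p, φ ∘ₗ (ρ (c ^ i)) = ε := by
    apply hext
    intro h
    rw [LinearMap.sum_apply, hε]
    exact hφ h
  have hfinv : f ∘ₗ (ρ c) = f := by
    apply hext
    intro h
    exact hf h
  have hfinv' : ∀ (k : ℕ) y, f (ρ (c ^ k) y) = f y := by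
    intro k
    induction k with
    | zero => intro y; simp
    | succ k ih =>
      intro y
      rw [pow_succ', map_mul, Module.End.mul_apply]
      have := congrArg (fun L => L (ρ (c ^ k) y)) hfinv
      simp only [LinearMap.comp_apply] at this
      rw [this, ih]
  -- the fixed vector
  set v : V := e.symm ε with hv
  set y : V := e.symm φ with hy
  have hvne : v ≠ 0 := by
    intro h0
    have h1 : ε = 0 := by
      have : e v = ε := e.apply_symm_apply ε
      rw [← this, h0]
      exact map_zero e
    have := hε 1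
    rw [h1] at this
    simp at this
  have hvfix : ∀ g, ρ g v = v := by
    intro g
    have h1 : ρ g (e.symm ε) = e.symm (ρ.dual g ε) :=
      (Representation.IntertwiningMap.isIntertwining _ _ (e.symm).toIntertwiningMap g ε).symm
    rw [hv, h1]
    congr 1
    rw [Representation.dual_apply]
    exact hεinv g⁻¹
  have hvy : v = ∑ i ∈ Finset.range p, ρ ((c ^ i)⁻¹) y := by
    have h1 : ε = ∑ i ∈ Finset.range p, ρ.dual ((c ^ i)⁻¹) φ := by
      rw [← hφ']
      refine Finset.sum_congr rfl ?_
      intro i _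
      rw [Representation.dual_apply, inv_inv]
      rfl
    rw [hv, h1, map_sum]
    refine Finset.sum_congr rfl ?_
    intro i _
    exact Representation.IntertwiningMap.isIntertwining _ _ (e.symm).toIntertwiningMap _ φ
  have hfv : f v = 0 := by
    rw [hvy, map_sum]
    have : ∀ i ∈ Finset.range p, f (ρ ((c ^ i)⁻¹) y) = f y := by
      intro i hi
      have : (c ^ i)⁻¹ = c ^ (p - i) := by
        rw [inv_eq_iff_mul_eq_one, ← pow_add, Nat.add_sub_cancel' (Finset.mem_range.mp hi).le, hc]
      rw [this, hfinv']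
    rw [Finset.sum_congr rfl this]
    simp
  exact hf' v hvfix hvne hfv

end abstractRep

theorem exists_perm_extending {n p : ℕ} (u w : Fin p → Fin n) (hu : Function.Injective u)
    (hw : Function.Injective w) : ∃ t : Perm (Fin n), ∀ i, t (u i) = w i := by
  have := Equiv.Perm.isMultiplyPretransitive (Fin n) p
  obtain ⟨t, ht⟩ := MulAction.exists_smul_eq (Perm (Fin n)) (⟨u, hu⟩ : Fin p ↪ Fin n) ⟨w, hw⟩
  refine ⟨t, ?_⟩
  intro i
  have := congrArg (fun f : Fin p ↪ Fin n => f i) ht
  simpa using this

theorem exists_first_functional {F : Type*} [Field F] {n : ℕ} (q : Composition n) (p : ℕ)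
    (hp : p.Prime) (j : Fin q.length) (hj : p ≤ q.blocksFun j) (g : Perm (Fin n))
    (hg : orderOf g = p) :
    ∃ (t : Perm (Fin n)) (R : Perm (Fin n) → F), Loc q.index t R ∧
      ∀ h : Perm (Fin n), ∑ i ∈ Finset.range p, R (g ^ i * h) = 1 := by
  classical
  have hai : ∀ (e : Perm (Fin n)) x, e (e⁻¹ x) = x := fun e x => by simp
  have hia : ∀ (e : Perm (Fin n)) x, e⁻¹ (e x) = x := fun e x => by simp
  -- a moved label
  have hg1 : g ≠ 1 := by
    intro h
    rw [h, orderOf_one] at hg
    exact hp.one_lt.ne hg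
  obtain ⟨a, ha⟩ : ∃ a, g a ≠ a := by
    by_contra hc
    push Not at hc
    exact hg1 (Equiv.ext hc)
  have hgp : g ^ p = 1 := by rw [← hg]; exact pow_orderOf_eq_one g
  have hper : Function.IsPeriodicPt g p a := by
    have := congrArg (fun s : Perm (Fin n) => s a) hgp
    simpa [Function.IsPeriodicPt, Function.IsFixedPt, ← Equiv.Perm.iterate_eq_pow] using this
  have hmin : Function.minimalPeriod g a = p := by
    have hdvd := hper.minimalPeriod_dvd
    rcases (Nat.dvd_prime hp).mp hdvd with h | h
    · exact absurd (Function.minimalPeriod_eq_one_iff_isFixedPt.mp h) ha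
    · exact h
  have hinj : ∀ i < p, ∀ k < p, (g ^ i) a = (g ^ k) a → i = k := by
    intro i hi k hk h
    have := Function.iterate_injOn_Iio_minimalPeriod (f := g) (x := a)
    rw [hmin] at this
    refine this hi hk ?_
    simpa [Equiv.Perm.iterate_eq_pow] using h
  obtain ⟨t, ht⟩ := exists_perm_extending
    (fun i : Fin p => q.embedding j ⟨i, lt_of_lt_of_le i.2 hj⟩)
    (fun i : Fin p => (g ^ (i : ℕ)) a)
    (by
      intro x y hxy
      have := (q.embedding j).injective hxy
      rw [Fin.mk.injEq] at this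
      exact Fin.ext this)
    (by
      intro x y hxy
      exact Fin.ext (hinj x x.2 y y.2 hxy))
  have hblock : ∀ i < p, q.index (t⁻¹ ((g ^ i) a)) = j := by
    intro i hi
    have := ht ⟨i, hi⟩
    simp only at this
    rw [← this]
    simp [Composition.index_embedding]
  refine ⟨t, fun τ => if ∀ k < p, τ⁻¹ a ≤ τ⁻¹ ((g ^ k) a) then 1 else 0, ?_, ?_⟩
  · intro τ τ' hττ
    have : (∀ k < p, τ⁻¹ a ≤ τ⁻¹ ((g ^ k) a)) ↔ (∀ k < p, τ'⁻¹ a ≤ τ'⁻¹ ((g ^ k) a)) := by
      refine forall₂_congr ?_
      intro k hk
      rw [← not_lt, ← not_lt, not_iff_not]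
      apply hττ
      rw [hblock k hk]
      have := hblock 0 hp.pos
      rw [pow_zero, Equiv.Perm.one_apply] at this
      rw [this]
    simp only [this]
  · intro h
    set w : ℕ → Fin n := fun i => h⁻¹ ((g ^ i)⁻¹ a) with hw
    have hwinj : ∀ i < p, ∀ k < p, w i = w k → i = k := by
      intro i hi k hk heq
      have h1 : (g ^ i)⁻¹ a = (g ^ k)⁻¹ a := (h⁻¹).injective heq
      have h2 : (g ^ k) a = (g ^ i) a := by
        have := congrArg (fun x => (g ^ i) ((g ^ k) x)) h1
        simp only [hai] at this
        have hcomm : ∀ x, (g ^ i) ((g ^ k) x) = (g ^ k) ((g ^ i) x) := by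
          intro x
          rw [← Equiv.Perm.mul_apply, ← Equiv.Perm.mul_apply, ← pow_add, ← pow_add, add_comm]
        rw [hcomm, hai] at this
        exact this
      exact (hinj k hk i hi h2).symm
    have hcond : ∀ i < p, ((∀ k < p, (g ^ i * h)⁻¹ a ≤ (g ^ i * h)⁻¹ ((g ^ k) a)) ↔
        ∀ k < p, w i ≤ w k) := by
      intro i hi
      have hmod : ∀ m, g ^ (m % p) = g ^ m := by
        intro m
        rw [← hg]
        exact pow_mod_orderOf g m
      constructor
      · intro hall k hk
        have := hall ((i + (p - k)) % p) (Nat.mod_lt _ hp.pos)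
        rw [hmod] at this
        simp only [mul_inv_rev, Equiv.Perm.mul_apply] at this
        have e : (g ^ i)⁻¹ ((g ^ (i + (p - k))) a) = (g ^ k)⁻¹ a := by
          rw [pow_add, Equiv.Perm.mul_apply, hia]
          have : g ^ (p - k) = (g ^ k)⁻¹ := by
            rw [eq_inv_iff_mul_eq_one, ← pow_add, Nat.sub_add_cancel hk.le, hgp]
          rw [this]
        rw [e] at this
        exact this
      · intro hall k hk
        have := hall ((i + (p - k)) % p) (Nat.mod_lt _ hp.pos)
        simp only [hw] at this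
        rw [hmod] at this
        simp only [mul_inv_rev, Equiv.Perm.mul_apply]
        have e : (g ^ (i + (p - k)))⁻¹ a = (g ^ i)⁻¹ ((g ^ k) a) := by
          have h3 : (g ^ (i + (p - k)))⁻¹ = (g ^ i)⁻¹ * g ^ k := by
            rw [inv_eq_iff_mul_eq_one, pow_add]
            have h4 : g ^ (p - k) * ((g ^ i)⁻¹ * g ^ k) = (g ^ i)⁻¹ := by
              have : g ^ (p - k) = (g ^ k)⁻¹ := by
                rw [eq_inv_iff_mul_eq_one, ← pow_add, Nat.sub_add_cancel hk.le, hgp]
              rw [this]
              have hc : Commute (g ^ k) (g ^ i)⁻¹ := ((Commute.refl g).pow_pow k i).inv_right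
              rw [← hc.eq, ← mul_assoc]
              simp
            rw [mul_assoc, h4, mul_inv_cancel]
          rw [h3, Equiv.Perm.mul_apply]
        rw [e] at this
        exact this
    obtain ⟨i₀, hi₀, hmin₀⟩ := Finset.exists_min_image (Finset.range p) w
      ⟨0, Finset.mem_range.mpr hp.pos⟩
    rw [Finset.sum_eq_single_of_mem i₀ hi₀]
    · simp only
      rw [if_pos]
      rw [hcond i₀ (Finset.mem_range.mp hi₀)]
      intro k hk
      exact hmin₀ k (Finset.mem_range.mpr hk)
    · intro i hi hne
      simp only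
      rw [if_neg]
      rw [hcond i (Finset.mem_range.mp hi)]
      intro hall
      apply hne
      apply hwinj i (Finset.mem_range.mp hi) i₀ (Finset.mem_range.mp hi₀)
      exact le_antisymm (hall i₀ (Finset.mem_range.mp hi₀)) (hmin₀ i hi)

section final

variable {F : Type*} [Field F] {n : ℕ} (q : Composition n)

open Classical in
theorem descentElement_eq : descentElement F q =
    ∑ σ ∈ Finset.univ.filter (fun σ : Perm (Fin n) => Inc q.index σ),
      MonoidAlgebra.single σ 1 := by
  unfold descentElement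
  refine Finset.sum_congr ?_ (fun _ _ => rfl)
  ext σ
  simp [descents_subset_iff]

/-- the generator of `X^q_F` as an element of the submodule -/
noncomputable def gen : descentIdeal F q :=
  ⟨descentElement F q, Submodule.subset_span (Set.mem_singleton _)⟩

theorem descentRep_apply (g : Perm (Fin n)) (y : descentIdeal F q) :
    ((descentRep F q g y : descentIdeal F q) : MonoidAlgebra F (Perm (Fin n))) =
      MonoidAlgebra.single g 1 * (y : MonoidAlgebra F (Perm (Fin n))) := by
  simp [descentRep, Representation.ofModule']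

theorem descentRep_gen (g : Perm (Fin n)) :
    ((descentRep F q g (gen q) : descentIdeal F q) : MonoidAlgebra F (Perm (Fin n))) =
      MonoidAlgebra.single g 1 * descentElement F q := descentRep_apply q g (gen q)

theorem span_gen : Submodule.span F (Set.range (fun g => descentRep F q g (gen q))) = ⊤ := by
  rw [eq_top_iff]
  rintro ⟨y, hy⟩ -
  have hy' := hy
  unfold descentIdeal at hy'
  rw [Submodule.mem_span_singleton] at hy'
  obtain ⟨x, hx⟩ := hy'
  have key : ∀ x : MonoidAlgebra F (Perm (Fin n)),
      x • (gen q : descentIdeal F q) ∈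
        Submodule.span F (Set.range (fun g => descentRep F q g (gen q))) := by
    intro x
    induction x using MonoidAlgebra.induction_linear with
    | zero => rw [zero_smul]; exact Submodule.zero_mem _
    | add f g hf hg => rw [add_smul]; exact Submodule.add_mem _ hf hg
    | single g c =>
      have : (MonoidAlgebra.single g c) • (gen q : descentIdeal F q) =
          c • descentRep F q g (gen q) := by
        apply Subtype.ext
        rw [Submodule.coe_smul, Submodule.coe_smul_of_tower, descentRep_gen]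
        simp only [gen, smul_eq_mul]
        rw [← smul_mul_assoc]
        congr 1
        simp
      rw [this]
      exact Submodule.smul_mem _ _ (Submodule.subset_span ⟨g, rfl⟩)
  have h2 : (⟨y, hy⟩ : descentIdeal F q) = x • gen q := by
    apply Subtype.ext
    rw [Submodule.coe_smul]
    exact hx.symm
  rw [h2]
  exact key x

/-- functional on `X^q_F` -/
noncomputable def PhiX (t : Perm (Fin n)) (R : Perm (Fin n) → F) : descentIdeal F q →ₗ[F] F :=
  (Phi q.index t R) ∘ₗ ((descentIdeal F q).subtype.restrictScalars F)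

theorem PhiX_apply (t : Perm (Fin n)) (R : Perm (Fin n) → F) (y : descentIdeal F q) :
    PhiX q t R y = Phi q.index t R (y : MonoidAlgebra F (Perm (Fin n))) := rfl

theorem PhiX_gen (t : Perm (Fin n)) (R : Perm (Fin n) → F) (hR : Loc q.index t R)
    (h : Perm (Fin n)) : PhiX q t R (descentRep F q h (gen q)) = R h := by
  rw [PhiX_apply, descentRep_gen, descentElement_eq]
  exact Phi_mul q.index (index_monotone q) t R hR h

theorem PhiX_gen' (t : Perm (Fin n)) (R : Perm (Fin n) → F) (hR : Loc q.index t R)
    (g h : Perm (Fin n)) :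
    PhiX q t R (descentRep F q g (descentRep F q h (gen q))) = R (g * h) := by
  rw [← Module.End.mul_apply, ← map_mul]
  exact PhiX_gen q t R hR (g * h)

theorem loc_one (t : Perm (Fin n)) : Loc q.index t (fun _ => (1 : F)) := fun _ _ _ => rfl

open Classical in
/-- number of permutations increasing on blocks -/
theorem card_inc : (Finset.univ.filter (fun σ : Perm (Fin n) => Inc q.index σ)).card *
    ∏ j, (q.blocksFun j).factorial = n.factorial := by
  have h := card_inc_mul q.index (index_monotone q) (fun _ => True) (fun _ _ _ _ => trivial)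
  simp only [true_and, Finset.filter_true, Finset.card_univ, Fintype.card_perm,
    Fintype.card_fin] at h
  rw [← h, ← card_block_perms q]

theorem sum_translates_zero (p : ℕ) (hp : p.Prime) [CharP F p]
    (hcarry : ∑ j, q.blocksFun j / p < n / p) :
    ∑ g : Perm (Fin n), descentRep F q g (gen q) = 0 := by
  classical
  apply Subtype.ext
  rw [Submodule.coe_sum]
  simp only [descentRep_gen, descentElement_eq, Finset.mul_sum,
    MonoidAlgebra.single_mul_single, mul_one]
  rw [Finset.sum_comm]
  have h1 : ∀ σ : Perm (Fin n), ∑ g : Perm (Fin n), MonoidAlgebra.single (g * σ) (1 : F) =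
      ∑ g : Perm (Fin n), MonoidAlgebra.single g (1 : F) := fun σ =>
    Equiv.sum_comp (Equiv.mulRight σ) (fun g => MonoidAlgebra.single g (1 : F))
  simp only [h1, Finset.sum_const]
  have hdvd := dvd_card_of_carry q p hp hcarry _ (card_inc q)
  have h0 : ((Finset.univ.filter (fun σ : Perm (Fin n) => Inc q.index σ)).card : F) = 0 := by
    rw [CharP.cast_eq_zero_iff F p]
    exact hdvd
  rw [← Nat.cast_smul_eq_nsmul F, h0, zero_smul]
  rfl

/-- the element of order `p` fixing all low labels -/
theorem exists_cycle (p : ℕ) (hp : p.Prime) (hcarry : ∑ j, q.blocksFun j / p < n / p) :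
    ∃ c : Perm (Fin n), orderOf c = p ∧ ∀ l, Low q p l → c l = l := by
  classical
  have hcard : p ≤ Fintype.card {l : Fin n // ¬ Low q p l} := by
    rw [Fintype.card_subtype]
    have h1 := Finset.card_filter_add_card_filter_not (s := (Finset.univ : Finset (Fin n)))
      (p := fun l => Low q p l)
    rw [card_low, Finset.card_univ, Fintype.card_fin, ← Finset.mul_sum] at h1
    have h2 : p * (∑ j, q.blocksFun j / p + 1) ≤ n := by
      calc p * (∑ j, q.blocksFun j / p + 1) ≤ p * (n / p) := Nat.mul_le_mul_left _ hcarry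
        _ ≤ n := Nat.mul_div_le _ _
    rw [mul_add, mul_one] at h2
    omega
  have hdvd : p ∣ Fintype.card (Perm {l : Fin n // ¬ Low q p l}) := by
    rw [Fintype.card_perm]
    exact Nat.dvd_factorial hp.pos hcard
  have : Fact p.Prime := ⟨hp⟩
  obtain ⟨x, hx⟩ := exists_prime_orderOf_dvd_card (G := Perm {l : Fin n // ¬ Low q p l}) p hdvd
  refine ⟨Perm.ofSubtype x, ?_, ?_⟩
  · rw [orderOf_injective Perm.ofSubtype Perm.ofSubtype_injective]
    exact hx
  · intro l hl
    exact Perm.ofSubtype_apply_of_not_mem x (by simpa using hl)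

open Classical in
/-- indicator of: low labels of each block occur in increasing order -/
noncomputable def lowInd (p : ℕ) (τ : Perm (Fin n)) : F :=
  if ∀ l l' : Fin n, l < l' → fine q p l = fine q p l' → τ⁻¹ l < τ⁻¹ l' then 1 else 0

theorem index_eq_of_fine_eq (p : ℕ) {l l' : Fin n} (h : fine q p l = fine q p l') :
    q.index l = q.index l' := by
  have := (fine_eq_iff q p l l').mp h
  by_cases h1 : Low q p l <;> by_cases h2 : Low q p l' <;> simp_all

theorem low_of_fine_eq (p : ℕ) {l l' : Fin n} (hne : l ≠ l') (h : fine q p l = fine q p l') :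
    Low q p l ∧ Low q p l' := by
  have := (fine_eq_iff q p l l').mp h
  by_cases h1 : Low q p l <;> by_cases h2 : Low q p l' <;> simp_all

theorem loc_lowInd (p : ℕ) : Loc q.index 1 (lowInd (F := F) q p) := by
  intro τ τ' h
  unfold lowInd
  have : (∀ l l' : Fin n, l < l' → fine q p l = fine q p l' → τ⁻¹ l < τ⁻¹ l') ↔
      (∀ l l' : Fin n, l < l' → fine q p l = fine q p l' → τ'⁻¹ l < τ'⁻¹ l') := by
    refine forall₄_congr ?_
    intro l l' _ hf
    apply h
    simpa using index_eq_of_fine_eq q p hf
  simp only [this]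

theorem lowInd_mul (p : ℕ) (c : Perm (Fin n)) (hc : ∀ l, Low q p l → c l = l)
    (h : Perm (Fin n)) : lowInd (F := F) q p (c * h) = lowInd q p h := by
  unfold lowInd
  have : (∀ l l' : Fin n, l < l' → fine q p l = fine q p l' → (c * h)⁻¹ l < (c * h)⁻¹ l') ↔
      (∀ l l' : Fin n, l < l' → fine q p l = fine q p l' → h⁻¹ l < h⁻¹ l') := by
    refine forall₄_congr ?_
    intro l l' hlt hf
    obtain ⟨h1, h2⟩ := low_of_fine_eq q p hlt.ne hf
    have e : ∀ l, Low q p l → (c * h)⁻¹ l = h⁻¹ l := by
      intro l hl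
      rw [mul_inv_rev, Perm.mul_apply]
      congr 1
      rw [Perm.inv_eq_iff_eq]
      exact (hc l hl).symm
    rw [e l h1, e l' h2]
  simp only [this]

open Classical in
theorem card_lowInd (p : ℕ) (hp : p.Prime) :
    ¬ p ∣ (Finset.univ.filter (fun τ : Perm (Fin n) => (∀ i, q.index (τ i) = q.index i) ∧
      ∀ l l' : Fin n, l < l' → fine q p l = fine q p l' → τ⁻¹ l < τ⁻¹ l')).card := by
  have h := card_inc_mul (fine q p) (fine_monotone q p)
    (fun τ => ∀ i, q.index (τ i) = q.index i) (by
      intro τ ρ hτ hρ i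
      rw [Perm.mul_apply, hτ]
      exact index_eq_of_fine_eq q p (hρ i))
  rw [card_fine_perms] at h
  replace h : (Finset.univ.filter (fun σ : Perm (Fin n) => (∀ i, q.index (σ i) = q.index i) ∧
        Inc (fine q p) σ)).card * ∏ j, (p * (q.blocksFun j / p)).factorial =
      ∏ j, (q.blocksFun j).factorial := by
    rw [← card_block_perms q]
    convert h
  obtain ⟨K, hK1, hK2⟩ := exists_prod_factorial q p hp
  rw [hK1, mul_comm] at h
  have hpos : 0 < ∏ j, (p * (q.blocksFun j / p)).factorial :=
    Finset.prod_pos (fun j _ => Nat.factorial_pos _)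
  have h2 := Nat.eq_of_mul_eq_mul_left hpos h
  have h3 : (Finset.univ.filter (fun τ : Perm (Fin n) => (∀ i, q.index (τ i) = q.index i) ∧
      ∀ l l' : Fin n, l < l' → fine q p l = fine q p l' → τ⁻¹ l < τ⁻¹ l')).card =
      (Finset.univ.filter (fun σ : Perm (Fin n) => (∀ i, q.index (σ i) = q.index i) ∧
        Inc (fine q p) σ)).card := by
    refine Finset.card_bij (fun τ _ => τ⁻¹) ?_ ?_ ?_
    · intro τ hτ
      simp only [Finset.mem_filter, Finset.mem_univ, true_and] at hτ ⊢
      refine ⟨?_, hτ.2⟩
      intro i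
      have := hτ.1 (τ⁻¹ i)
      simpa using this.symm
    · intro τ _ τ' _ h
      exact inv_injective h
    · intro σ hσ
      simp only [Finset.mem_filter, Finset.mem_univ, true_and] at hσ
      refine ⟨σ⁻¹, ?_, inv_inv σ⟩
      simp only [Finset.mem_filter, Finset.mem_univ, true_and]
      refine ⟨?_, ?_⟩
      · intro i
        have := hσ.1 (σ⁻¹ i)
        simpa using this.symm
      · intro l l' h1 h2
        rw [inv_inv]
        exact hσ.2 l l' h1 h2
  rw [h3, h2]
  exact hK2

theorem lowInd_fixed (p : ℕ) (hp : p.Prime) [CharP F p] (v : descentIdeal F q)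
    (hv : ∀ g, descentRep F q g v = v) (hv0 : v ≠ 0) :
    PhiX q 1 (lowInd q p) v ≠ 0 := by
  classical
  -- `v` is a constant function
  have hconst : ∀ τ, (v : MonoidAlgebra F (Perm (Fin n))).coeff τ =
      (v : MonoidAlgebra F (Perm (Fin n))).coeff 1 := by
    intro τ
    have h1 := congrArg (fun y : descentIdeal F q =>
      (y : MonoidAlgebra F (Perm (Fin n))).coeff τ) (hv τ)
    simp only [descentRep_apply] at h1
    rw [← h1, MonoidAlgebra.coeff_single_mul_apply]
    simp
  set c := (v : MonoidAlgebra F (Perm (Fin n))).coeff 1 with hcdef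
  have hc : c ≠ 0 := by
    intro h0
    apply hv0
    apply Subtype.ext
    ext τ
    rw [hconst, h0]
    rfl
  have hval : PhiX q 1 (lowInd q p) v = ((Finset.univ.filter (fun τ : Perm (Fin n) =>
      (∀ i, q.index (τ i) = q.index i) ∧
      ∀ l l' : Fin n, l < l' → fine q p l = fine q p l' → τ⁻¹ l < τ⁻¹ l')).card : F) * c := by
    rw [PhiX_apply]
    have hv' : (v : MonoidAlgebra F (Perm (Fin n))) =
        ∑ τ : Perm (Fin n), c • MonoidAlgebra.single τ (1 : F) := by
      ext τ
      rw [hconst]
      simp [MonoidAlgebra.coeff_sum]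
    rw [hv', map_sum]
    simp only [map_smul, Phi_single, smul_eq_mul, lowInd, inv_one, Perm.one_apply]
    rw [← Finset.mul_sum, mul_comm]
    congr 1
    rw [Finset.card_filter, Nat.cast_sum]
    refine Finset.sum_congr rfl ?_
    intro τ _
    by_cases h1 : ∀ i, q.index (τ i) = q.index i
    · by_cases h2 : ∀ l l' : Fin n, l < l' → fine q p l = fine q p l' → τ⁻¹ l < τ⁻¹ l'
      · rw [if_pos h1, if_pos h2, if_pos ⟨h1, h2⟩, Nat.cast_one]
      · rw [if_pos h1, if_neg h2, if_neg (fun h => h2 h.2), Nat.cast_zero]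
    · rw [if_neg h1, if_neg (fun h => h1 h.1), Nat.cast_zero]
  rw [hval]
  refine mul_ne_zero ?_ hc
  rw [Ne, CharP.cast_eq_zero_iff F p]
  exact card_lowInd q p hp

theorem main (p : ℕ) (hp : p.Prime) [CharP F p] (j : Fin q.length) (hj : p ≤ q.blocksFun j)
    (hcarry : ∑ j, q.blocksFun j / p < n / p) :
    ¬ Nonempty ((descentRep F q).Equiv (descentRep F q).dual) ∧
      ¬ IsTrivialSource (descentRep F q) := by
  have : Fact p.Prime := ⟨hp⟩
  have hε : ∀ g, PhiX q 1 (fun _ => (1 : F)) (descentRep F q g (gen q)) = 1 :=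
    fun g => PhiX_gen q 1 _ (loc_one q 1) g
  have H1 : ∀ g : Perm (Fin n), orderOf g = p → ∃ φ : descentIdeal F q →ₗ[F] F,
      ∀ h : Perm (Fin n), ∑ i ∈ Finset.range p,
        φ (descentRep F q (g ^ i) (descentRep F q h (gen q))) = 1 := by
    intro g hg
    obtain ⟨t, R, hR, hsum⟩ := exists_first_functional (F := F) q p hp j hj g hg
    refine ⟨PhiX q t R, ?_⟩
    intro h
    simp only [PhiX_gen' q t R hR]
    exact hsum h
  constructor
  · obtain ⟨c, hc1, hc2⟩ := exists_cycle q p hp hcarry
    obtain ⟨φ, hφ⟩ := H1 c hc1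
    refine not_selfDual p (descentRep F q) (gen q) (span_gen q)
      (PhiX q 1 (fun _ => (1 : F))) hε c (by rw [← hc1]; exact pow_orderOf_eq_one c) φ hφ
      (PhiX q 1 (lowInd q p)) ?_ (lowInd_fixed q p hp)
    intro h
    rw [PhiX_gen' q 1 _ (loc_lowInd q p), PhiX_gen q 1 _ (loc_lowInd q p)]
    exact lowInd_mul q p c hc2 h
  · exact not_trivialSource p (descentRep F q) (gen q) (span_gen q)
      (PhiX q 1 (fun _ => (1 : F))) hε H1 (sum_translates_zero q p hp hcarry)

end final

/-- Let `F` be a field of prime characteristic `p` and `q` a composition of `n` that has a part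
`≥ p` and satisfies `∑ ⌊q_i / p⌋ < ⌊n / p⌋`.  Then `X^q_F` is not self-dual and not a trivial source
module.  Such compositions exist as soon as `n ≥ 2 p`, for example `q = (p, 1, ..., 1)`. -/
theorem result (p : ℕ) (hp : p.Prime) (F : Type*) [Field F] [CharP F p] (n : ℕ) :
    (∀ q : Composition n, (∃ b ∈ q.blocks, p ≤ b) → (q.blocks.map (fun b => b / p)).sum < n / p →
      ¬ Nonempty ((descentRep F q).Equiv (descentRep F q).dual) ∧
        ¬ IsTrivialSource (descentRep F q)) ∧
    (2 * p ≤ n → ∃ q : Composition n, q.blocks = p :: List.replicate (n - p) 1 ∧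
      (∃ b ∈ q.blocks, p ≤ b) ∧ (q.blocks.map (fun b => b / p)).sum < n / p) := by
  constructor
  · rintro q ⟨b, hb, hpb⟩ hcarry
    obtain ⟨j, hj, hjb⟩ := List.getElem_of_mem hb
    refine main q p hp ⟨j, hj⟩ ?_ ?_
    · show p ≤ q.blocks[j]
      rw [hjb]
      exact hpb
    · have h1 : ∑ j, q.blocksFun j / p = (q.blocks.map (fun b => b / p)).sum := by
        rw [← q.ofFn_blocksFun, List.map_ofFn, List.sum_ofFn]
        rfl
      rw [h1]
      exact hcarry
  · intro hn
    refine ⟨⟨p :: List.replicate (n - p) 1, ?_, ?_⟩, rfl, ?_, ?_⟩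
    · intro i hi
      rcases List.mem_cons.mp hi with rfl | h
      · exact hp.pos
      · rw [List.eq_of_mem_replicate h]
        exact Nat.one_pos
    · simp
      omega
    · exact ⟨p, by simp, le_rfl⟩
    · have h1 : (1 : ℕ) / p = 0 := Nat.div_eq_of_lt hp.one_lt
      have h2 : 2 ≤ n / p := (Nat.le_div_iff_mul_le hp.pos).mpr hn
      simp only [List.map_cons, List.map_replicate, h1, List.sum_cons, List.sum_replicate,
        smul_zero, Nat.div_self hp.pos]
      omega

end Pool.H31.MV.DescentIdeal
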