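import Mathlib
import Pool.Agent.H85.KTMain
import Pool.Agent.H85.KTMetric
import Pool.Agent.H85.KTTwo

/-!
# Conservation laws of a generic Killing tensor of a constant curvature metric, dimension `n ≥ 3`: definitions of the statement
-/

namespace Pool.H31.MV.GenericKilling

open scoped ContDiff Matrix

open Filter Topology

/-- The partial derivative `∂F/∂xᵢ` of a function on `ℝⁿ`. -/
noncomputable def dd {n : ℕ} (i : Fin n) (F : (Fin n → ℝ) → ℝ) (x : Fin n → ℝ) : ℝ :=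
  fderiv ℝ F x (Pi.single i 1)

/-- `w(x) = 1 + κ ∑ εᵢ xᵢ²`. -/
def w {n : ℕ} (ε : Fin n → ℝ) (κ : ℝ) (x : Fin n → ℝ) : ℝ := 1 + κ * ∑ i, ε i * x i ^ 2

/-- The metric of constant curvature `κ` and signature `ε` in Beltrami (projective) coordinates:
`gᵢⱼ = εᵢ δᵢⱼ / w - κ εᵢ εⱼ xᵢ xⱼ / w²`. -/
noncomputable def metric {n : ℕ} (ε : Fin n → ℝ) (κ : ℝ) (x : Fin n → ℝ) :
    Matrix (Fin n) (Fin n) ℝ :=
  Matrix.of fun i j =>
    (if i = j then ε i / w ε κ x else 0) - κ * ε i * ε j * x i * x j / w ε κ x ^ 2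

/-- The Poisson bracket of two functions of `(x, p)` on `T^*ℝⁿ`. -/
noncomputable def poisson {n : ℕ} (A B : (Fin n → ℝ) → (Fin n → ℝ) → ℝ) (x p : Fin n → ℝ) : ℝ :=
  ∑ k, (dd k (fun q => A x q) p * dd k (fun y => B y p) x -
    dd k (fun y => A y p) x * dd k (fun q => B x q) p)

/-- `K` is a `(1,1)`-Killing tensor of the metric `g` on `M`: a smooth `g`-self-adjoint operator
field (`K x s j` is the component `Kˢⱼ` at `x`) for which `g⁻¹(Kp, p)` Poisson-commutes with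
`g⁻¹(p, p)`. -/
structure IsKillingTensor {n : ℕ} (g : (Fin n → ℝ) → Matrix (Fin n) (Fin n) ℝ)
    (M : Set (Fin n → ℝ)) (K : (Fin n → ℝ) → Matrix (Fin n) (Fin n) ℝ) : Prop where
  smooth : ∀ i j, ContDiffOn ℝ ∞ (fun x => K x i j) M
  selfAdjoint : ∀ x ∈ M, (g x * K x).IsSymm
  commute : ∀ x ∈ M, ∀ p, poisson (fun x p => p ⬝ᵥ ((g x)⁻¹ *ᵥ p))
    (fun x p => p ⬝ᵥ ((K x * (g x)⁻¹) *ᵥ p)) x p = 0

/-- `f` is a conservation law of the operator field `K` on `U`: the one-form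
`K^* df = (∑ₛ Kˢⱼ ∂ₛ f) dxⱼ` is closed on `U`. -/
def IsConservationLaw {n : ℕ} (K : (Fin n → ℝ) → Matrix (Fin n) (Fin n) ℝ)
    (U : Set (Fin n → ℝ)) (f : (Fin n → ℝ) → ℝ) : Prop :=
  ∀ x ∈ U, ∀ i j, dd i (fun y => ∑ s, K y s j * dd s f y) x =
    dd j (fun y => ∑ s, K y s i * dd s f y) x

open Pool.Agent.H85.KT

variable {n : ℕ}

end Pool.H31.MV.GenericKilling
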