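import Mathlib
import Pool.Agent.H85.KTMain
import Pool.Agent.H85.KTMetric
import Pool.Agent.H85.KTTwo
import Pool.Agent.H31.MV.GenericKillingDefs

/-!
# Conservation laws of a generic Killing tensor of a constant curvature metric, dimension `n ≥ 3`: the proof
-/

namespace Pool.H31.MV.GenericKilling

open scoped ContDiff Matrix

open Filter Topology

open Pool.Agent.H85.KT

variable {n : ℕ}

lemma dd_eq (i : Fin n) (F : (Fin n → ℝ) → ℝ) : dd i F = pd i F := rfl

lemma w_eq (ε : Fin n → ℝ) (κ : ℝ) (x : Fin n → ℝ) : w ε κ x = wf ε κ x := rfl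

/-- `w²` times the metric. -/
def Gl (ε : Fin n → ℝ) (κ : ℝ) (x : Fin n → ℝ) (i j : Fin n) : ℝ :=
  (if i = j then wf ε κ x * ε i else 0) - κ * ε i * ε j * (x i * x j)

/-- The inverse metric. -/
def Gi (ε : Fin n → ℝ) (κ : ℝ) (x : Fin n → ℝ) : Matrix (Fin n) (Fin n) ℝ :=
  Matrix.of fun i j => (if i = j then wf ε κ x * ε i else 0) + κ * wf ε κ x * (x i * x j)

lemma metric_apply {ε : Fin n → ℝ} {κ : ℝ} {x : Fin n → ℝ} (hw : wf ε κ x ≠ 0) (i j : Fin n) :
    metric ε κ x i j = Gl ε κ x i j / wf ε κ x ^ 2 := by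
  unfold metric Gl
  rw [Matrix.of_apply, w_eq]
  by_cases h : i = j
  · rw [if_pos h, if_pos h]; field_simp
  · rw [if_neg h, if_neg h]; ring

lemma sum_Gl (ε : Fin n → ℝ) (κ : ℝ) (x : Fin n → ℝ) (i : Fin n) (v : Fin n → ℝ) :
    ∑ j, Gl ε κ x i j * v j = wf ε κ x * ε i * v i - κ * ε i * x i * ∑ j, ε j * x j * v j := by
  have h : ∀ j, Gl ε κ x i j * v j = (if i = j then wf ε κ x * ε i * v j else 0) -
      κ * ε i * x i * (ε j * x j * v j) := by
    intro j
    unfold Gl
    split_ifs <;> ring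
  rw [Finset.sum_congr rfl fun j _ => h j, Finset.sum_sub_distrib, ← Finset.mul_sum,
    Finset.sum_ite_eq Finset.univ i]
  simp only [Finset.mem_univ, if_true]

lemma Gl_symm (ε : Fin n → ℝ) (κ : ℝ) (x : Fin n → ℝ) (i j : Fin n) :
    Gl ε κ x i j = Gl ε κ x j i := by
  unfold Gl
  by_cases h : i = j
  · subst h; rfl
  · rw [if_neg h, if_neg (Ne.symm h)]; ring

lemma kappa_sum (ε : Fin n → ℝ) (κ : ℝ) (x : Fin n → ℝ) :
    κ * ∑ i, ε i * x i ^ 2 = wf ε κ x - 1 := by unfold wf; ring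

lemma metric_mul_Gi {ε : Fin n → ℝ} (hε : ∀ i, ε i * ε i = 1) {κ : ℝ} {x : Fin n → ℝ}
    (hw : wf ε κ x ≠ 0) : metric ε κ x * Gi ε κ x = 1 := by
  ext i k
  rw [Matrix.mul_apply]
  have h1 : ∀ j, metric ε κ x i j * Gi ε κ x j k =
      (Gl ε κ x i j * ((if j = k then ε j else 0) + κ * (x j * x k))) / wf ε κ x := by
    intro j
    rw [metric_apply hw, Gi, Matrix.of_apply]
    by_cases h : j = k
    · rw [if_pos h, if_pos h]; field_simp
    · rw [if_neg h, if_neg h]; field_simp; ring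
  rw [Finset.sum_congr rfl fun j _ => h1 j, ← Finset.sum_div, sum_Gl]
  have h2 : ∑ j, ε j * x j * ((if j = k then ε j else 0) + κ * (x j * x k)) =
      wf ε κ x * x k := by
    have h3 : ∀ j, ε j * x j * ((if j = k then ε j else 0) + κ * (x j * x k)) =
        (if j = k then ε j * ε j * x j else 0) + x k * κ * (ε j * x j ^ 2) := by
      intro j; split_ifs <;> ring
    rw [Finset.sum_congr rfl fun j _ => h3 j, Finset.sum_add_distrib, ← Finset.mul_sum,
      Finset.sum_ite_eq' Finset.univ k]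
    simp only [Finset.mem_univ, if_true]
    rw [hε k, mul_assoc, kappa_sum]; ring
  rw [h2, Matrix.one_apply]
  have := hε i
  by_cases h : i = k
  · subst h
    rw [if_pos rfl, if_pos rfl]
    field_simp
    linear_combination this
  · rw [if_neg h, if_neg h]
    field_simp
    ring

lemma metric_inv {ε : Fin n → ℝ} (hε : ∀ i, ε i * ε i = 1) {κ : ℝ} {x : Fin n → ℝ}
    (hw : wf ε κ x ≠ 0) : (metric ε κ x)⁻¹ = Gi ε κ x :=
  Matrix.inv_eq_right_inv (metric_mul_Gi hε hw)

/-- `Gi p = w u`. -/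
lemma Gi_mulVec {ε : Fin n → ℝ} {κ : ℝ} (x p : Fin n → ℝ) (i : Fin n) :
    (Gi ε κ x *ᵥ p) i = wf ε κ x * uf ε κ x p i := by
  unfold uf sf
  rw [Matrix.mulVec, dotProduct]
  have h : ∀ j, Gi ε κ x i j * p j = (if i = j then wf ε κ x * ε i * p j else 0) +
      wf ε κ x * κ * x i * (p j * x j) := by
    intro j
    rw [Gi, Matrix.of_apply]
    split_ifs <;> ring
  rw [Finset.sum_congr rfl fun j _ => h j, Finset.sum_add_distrib, ← Finset.mul_sum,
    Finset.sum_ite_eq Finset.univ i]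
  simp only [Finset.mem_univ, if_true]
  ring

lemma H_eq {ε : Fin n → ℝ} {κ : ℝ} (x p : Fin n → ℝ) :
    p ⬝ᵥ (Gi ε κ x *ᵥ p) = Hf ε κ x p := by
  rw [dotProduct]
  simp only [Gi_mulVec]
  unfold Hf uf
  have h : ∀ i, p i * (wf ε κ x * (ε i * p i + κ * (x i * sf p x))) =
      wf ε κ x * (ε i * p i ^ 2) + wf ε κ x * κ * sf p x * (p i * x i) := fun i => by ring
  rw [Finset.sum_congr rfl fun i _ => h i, Finset.sum_add_distrib, ← Finset.mul_sum,
    ← Finset.mul_sum]
  have : ∑ i, p i * x i = sf p x := rfl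
  rw [this]; ring

/-- The covariant tensor `w² K_{ij}`. -/
def Qf (ε : Fin n → ℝ) (κ : ℝ) (K : (Fin n → ℝ) → Matrix (Fin n) (Fin n) ℝ) (i j : Fin n)
    (x : Fin n → ℝ) : ℝ := ∑ t, Gl ε κ x i t * K x t j

lemma F_eq {ε : Fin n → ℝ} (hε : ∀ i, ε i * ε i = 1) {κ : ℝ}
    (K : (Fin n → ℝ) → Matrix (Fin n) (Fin n) ℝ) (x p : Fin n → ℝ) :
    p ⬝ᵥ ((K x * Gi ε κ x) *ᵥ p) =
      ∑ i, ∑ j, Qf ε κ K i j x * (uf ε κ x p i * uf ε κ x p j) := by
  have h1 : ∀ t, ∑ i, Gl ε κ x i t * uf ε κ x p i = wf ε κ x * p t := by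
    intro t
    have h2 : ∀ i, Gl ε κ x i t * uf ε κ x p i = Gl ε κ x t i * uf ε κ x p i := fun i => by
      rw [Gl_symm]
    rw [Finset.sum_congr rfl fun i _ => h2 i, sum_Gl]
    have h3 : ∑ j, ε j * x j * uf ε κ x p j = wf ε κ x * sf p x := by
      have h4 : ∀ j, ε j * x j * uf ε κ x p j = p j * x j + sf p x * κ * (ε j * x j ^ 2) := by
        intro j; unfold uf; linear_combination (x j * p j) * hε j
      rw [Finset.sum_congr rfl fun j _ => h4 j, Finset.sum_add_distrib, ← Finset.mul_sum,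
        mul_assoc, kappa_sum]
      have : ∑ i, p i * x i = sf p x := rfl
      rw [this]; ring
    rw [h3]; unfold uf
    linear_combination (wf ε κ x * p t) * hε t
  rw [← Matrix.mulVec_mulVec, dotProduct]
  have h5 : ∀ t, p t * (K x *ᵥ (Gi ε κ x *ᵥ p)) t =
      ∑ j, ∑ i, Gl ε κ x i t * K x t j * (uf ε κ x p i * uf ε κ x p j) := by
    intro t
    rw [Matrix.mulVec, dotProduct, Finset.mul_sum]
    refine Finset.sum_congr rfl fun j _ => ?_
    rw [Gi_mulVec]
    have h6 : ∑ i, Gl ε κ x i t * K x t j * (uf ε κ x p i * uf ε κ x p j) =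
        (∑ i, Gl ε κ x i t * uf ε κ x p i) * (K x t j * uf ε κ x p j) := by
      rw [Finset.sum_mul]
      exact Finset.sum_congr rfl fun i _ => by ring
    rw [h6, h1]; ring
  rw [Finset.sum_congr rfl fun t _ => h5 t]
  simp only [Qf, Finset.sum_mul]
  rw [Finset.sum_comm]
  rw [Finset.sum_congr rfl fun j _ => Finset.sum_comm]
  rw [Finset.sum_comm]

/-- The Poisson bracket of the problem in terms of `Qf`. -/
lemma poisson_eq {ε : Fin n → ℝ} (hε : ∀ i, ε i * ε i = 1) {κ : ℝ} {M : Set (Fin n → ℝ)}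
    (hM : IsOpen M) (hw : ∀ x ∈ M, 0 < wf ε κ x)
    (K : (Fin n → ℝ) → Matrix (Fin n) (Fin n) ℝ) {x : Fin n → ℝ} (hx : x ∈ M)
    (hQ : ∀ i j, Sm x (Qf ε κ K i j)) (hs : ∀ i j, Qf ε κ K i j x = Qf ε κ K j i x)
    (p : Fin n → ℝ) :
    poisson (fun x p => p ⬝ᵥ ((metric ε κ x)⁻¹ *ᵥ p))
      (fun x p => p ⬝ᵥ ((K x * (metric ε κ x)⁻¹) *ᵥ p)) x p =
      2 * wf ε κ x * ∑ k, uf ε κ x p k *
        ∑ i, ∑ j, pd k (Qf ε κ K i j) x * (uf ε κ x p i * uf ε κ x p j) := by
  rw [← pb_formula hε κ (Qf ε κ K) hQ hs p]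
  unfold poisson pb
  simp only [dd_eq]
  have hev : ∀ᶠ y in 𝓝 x, y ∈ M := hM.mem_nhds hx
  have h1 : (fun q => q ⬝ᵥ ((metric ε κ x)⁻¹ *ᵥ q)) = fun q => Hf ε κ x q := by
    funext q
    rw [metric_inv hε (hw x hx).ne', H_eq]
  have h2 : (fun q => q ⬝ᵥ ((K x * (metric ε κ x)⁻¹) *ᵥ q)) =
      fun q => ∑ i, ∑ j, Qf ε κ K i j x * (uf ε κ x q i * uf ε κ x q j) := by
    funext q
    rw [metric_inv hε (hw x hx).ne', F_eq hε]
  have h3 : (fun y => p ⬝ᵥ ((metric ε κ y)⁻¹ *ᵥ p)) =ᶠ[𝓝 x] fun y => Hf ε κ y p := by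
    filter_upwards [hev] with y hy
    rw [metric_inv hε (hw y hy).ne', H_eq]
  have h4 : (fun y => p ⬝ᵥ ((K y * (metric ε κ y)⁻¹) *ᵥ p)) =ᶠ[𝓝 x]
      fun y => ∑ i, ∑ j, Qf ε κ K i j y * (uf ε κ y p i * uf ε κ y p j) := by
    filter_upwards [hev] with y hy
    rw [metric_inv hε (hw y hy).ne', F_eq hε]
  refine Finset.sum_congr rfl fun k _ => ?_
  rw [h1, h2, (pd_congr h3 k).eq_of_nhds, (pd_congr h4 k).eq_of_nhds]

/-- The Killing covector obtained by lowering the index of a Killing field. -/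
lemma sum_Gl_Kp (ε : Fin n → ℝ) (κ : ℝ) (x : Fin n → ℝ) (a : KI n)
    (i : Fin n) :
    ∑ s, Gl ε κ x i s * MvPolynomial.eval x (Kp ε κ a s) = wf ε κ x * Xt ε a x i := by
  rw [sum_Gl]
  rcases a with k | ⟨k, l⟩
  · have h1 : ∀ s, MvPolynomial.eval x (Kp ε κ (Sum.inl k) s) =
        (if s = k then 1 else 0) + κ * ε k * (x k * x s) := by
      intro s
      by_cases h : s = k <;> simp [Kp, h]
    have h2 : ∑ j, ε j * x j * MvPolynomial.eval x (Kp ε κ (Sum.inl k) j) =
        wf ε κ x * (ε k * x k) := by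
      have h3 : ∀ j, ε j * x j * MvPolynomial.eval x (Kp ε κ (Sum.inl k) j) =
          (if j = k then ε j * x j else 0) + ε k * x k * κ * (ε j * x j ^ 2) := by
        intro j; rw [h1]; split_ifs <;> ring
      rw [Finset.sum_congr rfl fun j _ => h3 j, Finset.sum_add_distrib, ← Finset.mul_sum,
        Finset.sum_ite_eq' Finset.univ k]
      simp only [Finset.mem_univ, if_true]
      rw [mul_assoc (ε k * x k), kappa_sum]; ring
    rw [h2, h1]
    simp only [Xt]
    by_cases h : i = k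
    · subst h; rw [if_pos rfl, if_pos rfl]; ring
    · rw [if_neg h, if_neg h]; ring
  · have h1 : ∀ s, MvPolynomial.eval x (Kp ε κ (Sum.inr (k, l)) s) =
        (if s = l then ε k * x k else 0) - (if s = k then ε l * x l else 0) := by
      intro s
      simp only [Kp, map_sub]
      congr 1
      · split_ifs <;> simp
      · split_ifs <;> simp
    have h2 : ∑ j, ε j * x j * MvPolynomial.eval x (Kp ε κ (Sum.inr (k, l)) j) = 0 := by
      have h3 : ∀ j, ε j * x j * MvPolynomial.eval x (Kp ε κ (Sum.inr (k, l)) j) =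
          (if j = l then ε j * x j * (ε k * x k) else 0) -
            (if j = k then ε j * x j * (ε l * x l) else 0) := by
        intro j; rw [h1]; split_ifs <;> ring
      rw [Finset.sum_congr rfl fun j _ => h3 j, Finset.sum_sub_distrib,
        Finset.sum_ite_eq' Finset.univ l, Finset.sum_ite_eq' Finset.univ k]
      simp only [Finset.mem_univ, if_true]
      ring
    rw [h2, h1]
    simp only [Xt]
    by_cases h : i = l <;> by_cases h' : i = k
    · subst h; subst h'; ring
    · subst h; rw [if_pos rfl, if_neg h', if_pos rfl, if_neg h']; ring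
    · subst h'; rw [if_neg h, if_pos rfl, if_neg h, if_pos rfl]; ring
    · rw [if_neg h, if_neg h', if_neg h, if_neg h']; ring

lemma eval_Gp (ε : Fin n → ℝ) (κ : ℝ) (x : Fin n → ℝ) (i j : Fin n) :
    MvPolynomial.eval x (Gp ε κ i j) = Gl ε κ x i j := by
  unfold Gp Gl
  rw [wf_eq]
  by_cases h : i = j
  · subst h; simp
  · simp only [if_neg h, map_sub, map_zero, map_mul, MvPolynomial.eval_C, MvPolynomial.eval_X]
    ring

lemma sum_Gl_Bp (ε : Fin n → ℝ) (κ : ℝ) (x : Fin n → ℝ)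
    (c : KI n → KI n → ℝ) (i j : Fin n) :
    ∑ s, Gl ε κ x i s * MvPolynomial.eval x (Bp ε κ c j s) = wf ε κ x ^ 2 * Tq ε c x i j := by
  have h1 : ∀ s, MvPolynomial.eval x (Bp ε κ c j s) =
      ∑ a, ∑ b, c a b * (wf ε κ x * Xt ε a x j * MvPolynomial.eval x (Kp ε κ b s) +
        MvPolynomial.eval x (Kp ε κ a s) * (wf ε κ x * Xt ε b x j)) := by
    intro s
    unfold Bp Kup
    simp only [map_sum, map_mul, map_add, MvPolynomial.eval_C, eval_Gp, Finset.mul_sum]
    rw [Finset.sum_comm]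
    refine Finset.sum_congr rfl fun a _ => ?_
    rw [Finset.sum_comm]
    refine Finset.sum_congr rfl fun b _ => ?_
    rw [← sum_Gl_Kp ε κ x a j, ← sum_Gl_Kp ε κ x b j, Finset.sum_mul, Finset.mul_sum,
      ← Finset.sum_add_distrib, Finset.mul_sum]
    refine Finset.sum_congr rfl fun t _ => ?_
    ring
  simp only [h1, Finset.mul_sum]
  rw [Finset.sum_comm]
  unfold Tq
  simp only [Finset.mul_sum]
  refine Finset.sum_congr rfl fun a _ => ?_
  rw [Finset.sum_comm]
  refine Finset.sum_congr rfl fun b _ => ?_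
  have h2 : ∑ s, Gl ε κ x i s * (c a b * (wf ε κ x * Xt ε a x j *
      MvPolynomial.eval x (Kp ε κ b s) +
        MvPolynomial.eval x (Kp ε κ a s) * (wf ε κ x * Xt ε b x j))) =
      c a b * (wf ε κ x * Xt ε a x j * (∑ s, Gl ε κ x i s * MvPolynomial.eval x (Kp ε κ b s)) +
        (∑ s, Gl ε κ x i s * MvPolynomial.eval x (Kp ε κ a s)) * (wf ε κ x * Xt ε b x j)) := by
    rw [Finset.mul_sum, Finset.sum_mul, ← Finset.sum_add_distrib, Finset.mul_sum]
    refine Finset.sum_congr rfl fun t _ => ?_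
    ring
  rw [h2, sum_Gl_Kp, sum_Gl_Kp]
  ring

/-- The flat Killing equation for quadratic expressions in the covectors. -/
lemma flat_killing_Tq (ε : Fin n → ℝ) (c : KI n → KI n → ℝ) (x v : Fin n → ℝ) :
    ∑ k, v k * ∑ i, ∑ j, pd k (fun y => Tq ε c y i j) x * (v i * v j) = 0 := by
  classical
  have hc : ∀ (c : ℝ) (x : Fin n → ℝ), Sm x (fun _ => c) := fun c x => contDiffAt_const
  have hX : ∀ (a : KI n) (i : Fin n), Sm x (fun y => Xt ε a y i) := by
    intro a i
    rcases a with k | ⟨k, l⟩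
    · exact contDiffAt_const
    · simp only [Xt]
      refine contDiffAt_const.mul (ContDiffAt.sub ?_ ?_)
      · split_ifs
        · exact sm_coord k x
        · exact contDiffAt_const
      · split_ifs
        · exact sm_coord l x
        · exact contDiffAt_const
  let φ : KI n → (Fin n → ℝ) → ℝ := fun a y => ∑ i, Xt ε a y i * v i
  have hφ : ∀ a, Sm x (φ a) := fun a => ContDiffAt.sum fun i _ => (hX a i).mul (hc _ _)
  have hφ0 : ∀ a, ∑ k, v k * pd k (φ a) x = 0 := by
    intro a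
    rcases a with k | ⟨k, l⟩
    · refine Finset.sum_eq_zero fun m _ => ?_
      have : φ (Sum.inl k) = fun _ => ∑ i, (if i = k then ε k else 0) * v i := rfl
      rw [this, pd_const, mul_zero]
    · have h1 : φ (Sum.inr (k, l)) = fun y => ε k * ε l * (v l * y k) - ε k * ε l * (v k * y l) := by
        funext y
        have h2 : ∀ i, Xt ε (Sum.inr (k, l)) y i * v i =
            (if i = l then ε k * ε l * (v i * y k) else 0) -
              (if i = k then ε k * ε l * (v i * y l) else 0) := by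
          intro i; simp only [Xt]; split_ifs <;> ring
        show ∑ i, Xt ε (Sum.inr (k, l)) y i * v i = _
        rw [Finset.sum_congr rfl fun i _ => h2 i, Finset.sum_sub_distrib,
          Finset.sum_ite_eq' Finset.univ l, Finset.sum_ite_eq' Finset.univ k]
        simp only [Finset.mem_univ, if_true]
      have h3 : ∀ m, v m * pd m (φ (Sum.inr (k, l))) x =
          (if k = m then ε k * ε l * v l * v m else 0) -
            (if l = m then ε k * ε l * v k * v m else 0) := by
        intro m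
        rw [h1, (pd_sub ((hc _ _).mul ((hc _ _).mul (sm_coord k x)))
          ((hc _ _).mul ((hc _ _).mul (sm_coord l x))) m).eq_of_nhds,
          pd_mul_at (hc _ _) ((hc _ _).mul (sm_coord k x)),
          pd_mul_at (hc _ _) ((hc _ _).mul (sm_coord l x)),
          pd_mul_at (hc _ _) (sm_coord k x), pd_mul_at (hc _ _) (sm_coord l x),
          pd_coord', pd_coord']
        simp only [pd_const]
        split_ifs <;> ring
      rw [Finset.sum_congr rfl fun m _ => h3 m, Finset.sum_sub_distrib,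
        Finset.sum_ite_eq Finset.univ k, Finset.sum_ite_eq Finset.univ l]
      simp only [Finset.mem_univ, if_true]
      ring
  have hT : ∀ i j, Sm x (fun y => Tq ε c y i j) := by
    intro i j
    unfold Tq
    exact ContDiffAt.sum fun a _ => ContDiffAt.sum fun b _ => contDiffAt_const.mul
      (((hX a i).mul (hX b j)).add ((hX a j).mul (hX b i)))
  have h1 : ∀ k, ∑ i, ∑ j, pd k (fun y => Tq ε c y i j) x * (v i * v j) =
      pd k (fun y => ∑ a, ∑ b, 2 * c a b * (φ a y * φ b y)) x := by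
    intro k
    have h2 : (fun y => ∑ a, ∑ b, 2 * c a b * (φ a y * φ b y)) =
        fun y => ∑ i, ∑ j, Tq ε c y i j * (v i * v j) := by
      funext y
      have h3 : ∀ a b, 2 * c a b * (φ a y * φ b y) = ∑ i, ∑ j,
          c a b * (Xt ε a y i * Xt ε b y j + Xt ε a y j * Xt ε b y i) * (v i * v j) := by
        intro a b
        have h4 : φ a y * φ b y = ∑ i, ∑ j, (Xt ε a y i * Xt ε b y j) * (v i * v j) := by
          show (∑ i, Xt ε a y i * v i) * (∑ i, Xt ε b y i * v i) = _
          rw [Finset.sum_mul_sum]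
          refine Finset.sum_congr rfl fun i _ => Finset.sum_congr rfl fun j _ => ?_
          ring
        have h5 : φ a y * φ b y = ∑ i, ∑ j, (Xt ε a y j * Xt ε b y i) * (v i * v j) := by
          rw [h4, Finset.sum_comm]
          refine Finset.sum_congr rfl fun i _ => Finset.sum_congr rfl fun j _ => ?_
          ring
        have h6 : 2 * c a b * (φ a y * φ b y) = c a b * (φ a y * φ b y) +
            c a b * (φ a y * φ b y) := by ring
        rw [h6]
        nth_rewrite 1 [h4]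
        rw [h5]
        simp only [Finset.mul_sum, ← Finset.sum_add_distrib]
        refine Finset.sum_congr rfl fun i _ => Finset.sum_congr rfl fun j _ => ?_
        ring
      simp only [h3, Tq, Finset.sum_mul]
      calc ∑ a, ∑ b, ∑ i, ∑ j, c a b * (Xt ε a y i * Xt ε b y j + Xt ε a y j * Xt ε b y i) *
            (v i * v j)
          = ∑ a, ∑ i, ∑ b, ∑ j, c a b * (Xt ε a y i * Xt ε b y j + Xt ε a y j * Xt ε b y i) *
            (v i * v j) := Finset.sum_congr rfl fun a _ => Finset.sum_comm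
        _ = ∑ i, ∑ a, ∑ b, ∑ j, c a b * (Xt ε a y i * Xt ε b y j + Xt ε a y j * Xt ε b y i) *
            (v i * v j) := Finset.sum_comm
        _ = ∑ i, ∑ a, ∑ j, ∑ b, c a b * (Xt ε a y i * Xt ε b y j + Xt ε a y j * Xt ε b y i) *
            (v i * v j) := Finset.sum_congr rfl fun i _ => Finset.sum_congr rfl fun a _ =>
              Finset.sum_comm
        _ = ∑ i, ∑ j, ∑ a, ∑ b, c a b * (Xt ε a y i * Xt ε b y j + Xt ε a y j * Xt ε b y i) *
            (v i * v j) := Finset.sum_congr rfl fun i _ => Finset.sum_comm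
    rw [h2, pd_sum_at _ (fun i _ => ContDiffAt.sum fun j _ => (hT i j).mul (hc _ _))]
    refine Finset.sum_congr rfl fun i _ => ?_
    rw [pd_sum_at _ (fun j _ => (hT i j).mul (hc _ _))]
    refine Finset.sum_congr rfl fun j _ => ?_
    rw [pd_mul_at (hT i j) (hc _ _), pd_const]
    ring
  have h7 : ∀ k, pd k (fun y => ∑ a, ∑ b, 2 * c a b * (φ a y * φ b y)) x =
      ∑ a, ∑ b, 2 * c a b * (pd k (φ a) x * φ b x + φ a x * pd k (φ b) x) := by
    intro k
    rw [pd_sum_at _ (fun a _ => ContDiffAt.sum fun b _ => (hc _ _).mul ((hφ a).mul (hφ b)))]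
    refine Finset.sum_congr rfl fun a _ => ?_
    rw [pd_sum_at _ (fun b _ => (hc _ _).mul ((hφ a).mul (hφ b)))]
    refine Finset.sum_congr rfl fun b _ => ?_
    rw [pd_mul_at (hc _ _) ((hφ a).mul (hφ b)), pd_mul_at (hφ a) (hφ b), pd_const]
    ring
  have h8 : ∑ k, v k * ∑ a, ∑ b, 2 * c a b * (pd k (φ a) x * φ b x + φ a x * pd k (φ b) x) =
      ∑ a, ∑ b, 2 * c a b * ((∑ k, v k * pd k (φ a) x) * φ b x +
        φ a x * ∑ k, v k * pd k (φ b) x) := by
    simp only [Finset.mul_sum]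
    rw [Finset.sum_comm]
    refine Finset.sum_congr rfl fun a _ => ?_
    rw [Finset.sum_comm]
    refine Finset.sum_congr rfl fun b _ => ?_
    rw [Finset.sum_mul, ← Finset.sum_add_distrib, Finset.mul_sum]
    refine Finset.sum_congr rfl fun k _ => ?_
    ring
  simp only [h1, h7]
  rw [h8]
  simp only [hφ0, zero_mul, mul_zero, add_zero, Finset.sum_const_zero]

/-- The Killing tensor attached to a coefficient array, extended by zero outside `M`. -/
noncomputable def Kten (ε : Fin n → ℝ) (κ : ℝ) (M : Set (Fin n → ℝ)) (c : KI n → KI n → ℝ)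
    (x : Fin n → ℝ) : Matrix (Fin n) (Fin n) ℝ := by
  classical
  exact if x ∈ M then Matrix.of fun s j => MvPolynomial.eval x (Bp ε κ c j s) / wf ε κ x ^ 2 else 0

lemma Kten_apply {ε : Fin n → ℝ} {κ : ℝ} {M : Set (Fin n → ℝ)} (c : KI n → KI n → ℝ)
    {x : Fin n → ℝ} (hx : x ∈ M) (s j : Fin n) :
    Kten ε κ M c x s j = MvPolynomial.eval x (Bp ε κ c j s) / wf ε κ x ^ 2 := by
  unfold Kten
  rw [if_pos hx, Matrix.of_apply]

lemma Kten_off {ε : Fin n → ℝ} {κ : ℝ} {M : Set (Fin n → ℝ)} (c : KI n → KI n → ℝ)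
    {x : Fin n → ℝ} (hx : x ∉ M) : Kten ε κ M c x = 0 := by
  unfold Kten
  rw [if_neg hx]

lemma eval_Bp_add (ε : Fin n → ℝ) (κ : ℝ) (c c' : KI n → KI n → ℝ) (x : Fin n → ℝ) (j s : Fin n) :
    MvPolynomial.eval x (Bp ε κ (c + c') j s) =
      MvPolynomial.eval x (Bp ε κ c j s) + MvPolynomial.eval x (Bp ε κ c' j s) := by
  unfold Bp Kup
  simp only [map_sum, map_mul, map_add, MvPolynomial.eval_C, Pi.add_apply, add_mul,
    Finset.sum_add_distrib, mul_add]
  ring

lemma eval_Bp_smul (ε : Fin n → ℝ) (κ : ℝ) (r : ℝ) (c : KI n → KI n → ℝ) (x : Fin n → ℝ)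
    (j s : Fin n) : MvPolynomial.eval x (Bp ε κ (r • c) j s) =
      r * MvPolynomial.eval x (Bp ε κ c j s) := by
  unfold Bp Kup
  simp only [map_sum, map_mul, map_add, MvPolynomial.eval_C, Pi.smul_apply, smul_eq_mul,
    Finset.mul_sum]
  refine Finset.sum_congr rfl fun i _ => Finset.sum_congr rfl fun a _ =>
    Finset.sum_congr rfl fun b _ => ?_
  ring

/-- `Kten` as a linear map. -/
noncomputable def KtenL (ε : Fin n → ℝ) (κ : ℝ) (M : Set (Fin n → ℝ)) :
    (KI n → KI n → ℝ) →ₗ[ℝ] ((Fin n → ℝ) → Matrix (Fin n) (Fin n) ℝ) where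
  toFun := Kten ε κ M
  map_add' c c' := by
    funext x
    by_cases hx : x ∈ M
    · ext s j
      simp only [Pi.add_apply, Matrix.add_apply, Kten_apply _ hx, eval_Bp_add]
      ring
    · simp only [Pi.add_apply, Kten_off _ hx, add_zero]
  map_smul' r c := by
    funext x
    by_cases hx : x ∈ M
    · ext s j
      simp only [Pi.smul_apply, Matrix.smul_apply, Kten_apply _ hx, eval_Bp_smul, smul_eq_mul,
        RingHom.id_apply]
      ring
    · simp only [Pi.smul_apply, Kten_off _ hx, smul_zero]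

lemma metric_mul_Kten {ε : Fin n → ℝ} {κ : ℝ} {M : Set (Fin n → ℝ)} (c : KI n → KI n → ℝ)
    {x : Fin n → ℝ} (hx : x ∈ M) (hw : wf ε κ x ≠ 0) (i j : Fin n) :
    (metric ε κ x * Kten ε κ M c x) i j = Tq ε c x i j / wf ε κ x ^ 2 := by
  rw [Matrix.mul_apply]
  have h : ∀ s, metric ε κ x i s * Kten ε κ M c x s j =
      (Gl ε κ x i s * MvPolynomial.eval x (Bp ε κ c j s)) / wf ε κ x ^ 2 / wf ε κ x ^ 2 := by
    intro s
    rw [metric_apply hw, Kten_apply _ hx]
    ring
  rw [Finset.sum_congr rfl fun s _ => h s, ← Finset.sum_div, ← Finset.sum_div, sum_Gl_Bp]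
  field_simp

lemma Tq_symm (ε : Fin n → ℝ) (c : KI n → KI n → ℝ) (x : Fin n → ℝ) (i j : Fin n) :
    Tq ε c x i j = Tq ε c x j i := by
  unfold Tq
  refine Finset.sum_congr rfl fun a _ => Finset.sum_congr rfl fun b _ => ?_
  ring

lemma Qf_Kten {ε : Fin n → ℝ} {κ : ℝ} {M : Set (Fin n → ℝ)}
    (c : KI n → KI n → ℝ) {x : Fin n → ℝ} (hx : x ∈ M) (hw : wf ε κ x ≠ 0) (i j : Fin n) :
    Qf ε κ (Kten ε κ M c) i j x = Tq ε c x i j := by
  unfold Qf
  have h : ∀ t, Gl ε κ x i t * Kten ε κ M c x t j =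
      (Gl ε κ x i t * MvPolynomial.eval x (Bp ε κ c j t)) / wf ε κ x ^ 2 := by
    intro t
    rw [Kten_apply _ hx]; ring
  rw [Finset.sum_congr rfl fun t _ => h t, ← Finset.sum_div, sum_Gl_Bp]
  field_simp

lemma metric_mul_eq {ε : Fin n → ℝ} {κ : ℝ}
    (K : (Fin n → ℝ) → Matrix (Fin n) (Fin n) ℝ) {x : Fin n → ℝ} (hw : wf ε κ x ≠ 0)
    (i j : Fin n) : (metric ε κ x * K x) i j = Qf ε κ K i j x / wf ε κ x ^ 2 := by
  rw [Matrix.mul_apply]
  unfold Qf
  rw [Finset.sum_div]
  refine Finset.sum_congr rfl fun s _ => ?_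
  rw [metric_apply hw]; ring

lemma smOn_Gl (ε : Fin n → ℝ) (κ : ℝ) (i j : Fin n) (M : Set (Fin n → ℝ)) :
    SmOn M (fun x => Gl ε κ x i j) := by
  have : (fun x => Gl ε κ x i j) = fun x => MvPolynomial.eval x (Gp ε κ i j) := by
    funext x; rw [eval_Gp]
  rw [this]
  exact (contDiff_eval _).contDiffOn

/-- Every tensor `Kten` is a Killing tensor. -/
lemma Kten_isKilling {ε : Fin n → ℝ} (hε : ∀ i, ε i * ε i = 1) {κ : ℝ} {M : Set (Fin n → ℝ)}
    (hM : IsOpen M) (hw : ∀ x ∈ M, 0 < wf ε κ x) (c : KI n → KI n → ℝ) :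
    IsKillingTensor (metric ε κ) M (Kten ε κ M c) := by
  have hsmw : SmOn M (wf ε κ) := fun x _ => (sm_wf ε κ x).contDiffWithinAt
  have hsm : ∀ i j, ContDiffOn ℝ ∞ (fun x => Kten ε κ M c x i j) M := by
    intro s j
    have h1 : ContDiffOn ℝ ∞ (fun x => MvPolynomial.eval x (Bp ε κ c j s) / wf ε κ x ^ 2) M :=
      (contDiff_eval _).contDiffOn.div (hsmw.pow 2) (fun x hx => pow_ne_zero 2 (hw x hx).ne')
    exact h1.congr fun x hx => Kten_apply c hx s j
  refine ⟨hsm, ?_, ?_⟩
  · intro x hx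
    ext i j
    rw [Matrix.transpose_apply, metric_mul_Kten c hx (hw x hx).ne',
      metric_mul_Kten c hx (hw x hx).ne', Tq_symm]
  · intro x hx p
    have hev : ∀ i j, Qf ε κ (Kten ε κ M c) i j =ᶠ[𝓝 x] fun y => Tq ε c y i j := by
      intro i j
      filter_upwards [hM.mem_nhds hx] with y hy
      exact Qf_Kten c hy (hw y hy).ne' i j
    have hQ : ∀ i j, Sm x (Qf ε κ (Kten ε κ M c) i j) := by
      intro i j
      have : SmOn M (Qf ε κ (Kten ε κ M c) i j) :=
        ContDiffOn.sum fun t _ => (smOn_Gl ε κ i t M).mul (hsm t j)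
      exact this.sm hM hx
    rw [poisson_eq hε hM hw _ hx hQ]
    · have h1 : ∀ k i j, pd k (Qf ε κ (Kten ε κ M c) i j) x = pd k (fun y => Tq ε c y i j) x :=
        fun k i j => (pd_congr (hev i j) k).eq_of_nhds
      simp only [h1]
      rw [flat_killing_Tq ε c x (uf ε κ x p), mul_zero]
    · intro i j
      rw [Qf_Kten c hx (hw x hx).ne', Qf_Kten c hx (hw x hx).ne', Tq_symm]

/-- Every Killing tensor is a `Kten`. -/
lemma exists_Kten {ε : Fin n → ℝ} (hε : ∀ i, ε i * ε i = 1) {κ : ℝ} {M : Set (Fin n → ℝ)}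
    (hM : IsOpen M) (hMc : IsPreconnected M) (hw : ∀ x ∈ M, 0 < wf ε κ x)
    {K : (Fin n → ℝ) → Matrix (Fin n) (Fin n) ℝ} (hK : IsKillingTensor (metric ε κ) M K)
    (hK0 : ∀ x, x ∉ M → K x = 0) : ∃ c, K = Kten ε κ M c := by
  have hε0 : ∀ i, ε i ≠ 0 := fun i h => by
    have := hε i
    rw [h] at this
    simp at this
  have hQ : ∀ i j, SmOn M (Qf ε κ K i j) := fun i j =>
    ContDiffOn.sum fun t _ => (smOn_Gl ε κ i t M).mul (hK.smooth t j)
  have hs : ∀ x ∈ M, ∀ i j, Qf ε κ K i j x = Qf ε κ K j i x := by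
    intro x hx i j
    have hw0 := (hw x hx).ne'
    have h1 := congrFun (congrFun (hK.selfAdjoint x hx) i) j
    rw [Matrix.transpose_apply, metric_mul_eq K hw0, metric_mul_eq K hw0] at h1
    have h2 : wf ε κ x ^ 2 ≠ 0 := pow_ne_zero 2 hw0
    field_simp at h1
    exact h1.symm
  have hflat : ∀ x ∈ M, ∀ i j k, pd k (Qf ε κ K i j) x + pd i (Qf ε κ K j k) x +
      pd j (Qf ε κ K k i) x = 0 := by
    intro x hx i j k
    refine polarize (fun k i j => pd k (Qf ε κ K i j) x) ?_ ?_ k i j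
    · intro k i j
      exact pd_eqOn hM (fun y hy => hs y hy i j) k hx
    · intro v
      obtain ⟨p, hp⟩ := exists_p hε κ (hw x hx).ne' v
      have h1 := hK.commute x hx p
      rw [poisson_eq hε hM hw K hx (fun i j => (hQ i j).sm hM hx) (hs x hx), hp] at h1
      exact (mul_eq_zero.mp h1).resolve_left (mul_ne_zero two_ne_zero (hw x hx).ne')
  obtain ⟨c, hc⟩ := exists_Tq hM hMc hε0 (fun i j => Qf ε κ K i j) hQ hs hflat
  refine ⟨c, ?_⟩
  funext x
  by_cases hx : x ∈ M
  · have hw0 := (hw x hx).ne'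
    have h1 : metric ε κ x * K x = metric ε κ x * Kten ε κ M c x := by
      ext i j
      rw [metric_mul_eq K hw0, metric_mul_Kten c hx hw0, hc x hx i j]
    have h2 : Gi ε κ x * metric ε κ x = 1 := mul_eq_one_comm.mp (metric_mul_Gi hε hw0)
    calc K x = (Gi ε κ x * metric ε κ x) * K x := by rw [h2, Matrix.one_mul]
      _ = (Gi ε κ x * metric ε κ x) * Kten ε κ M c x := by
          rw [Matrix.mul_assoc, h1, ← Matrix.mul_assoc]
      _ = Kten ε κ M c x := by rw [h2, Matrix.one_mul]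
  · rw [hK0 x hx, Kten_off c hx]

/-- The closedness equation in polynomial form. -/
lemma cleared_eq {ε : Fin n → ℝ} {κ : ℝ} {M : Set (Fin n → ℝ)}
    (hw : ∀ x ∈ M, 0 < wf ε κ x) (c : KI n → KI n → ℝ)
    (hKs : ∀ i j, ContDiffOn ℝ ∞ (fun x => Kten ε κ M c x i j) M)
    {U : Set (Fin n → ℝ)} (hU : IsOpen U) (hUM : U ⊆ M) {f : (Fin n → ℝ) → ℝ}
    (hf : ContDiffOn ℝ ∞ f U) (hcl : IsConservationLaw (Kten ε κ M c) U f) :
    ∀ x ∈ U, ∀ i j, MvPolynomial.eval x (Wp ε κ) *
          (pd i (fun x => ∑ s, MvPolynomial.eval x (Bp ε κ c j s) * pd s f x) x -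
            pd j (fun x => ∑ s, MvPolynomial.eval x (Bp ε κ c i s) * pd s f x) x) -
        2 * (MvPolynomial.eval x (MvPolynomial.pderiv i (Wp ε κ)) *
            (∑ s, MvPolynomial.eval x (Bp ε κ c j s) * pd s f x) -
          MvPolynomial.eval x (MvPolynomial.pderiv j (Wp ε κ)) *
            (∑ s, MvPolynomial.eval x (Bp ε κ c i s) * pd s f x)) = 0 := by
  intro x hx i j
  have hfs : SmOn U f := hf
  set θ : Fin n → (Fin n → ℝ) → ℝ := fun j y => ∑ s, Kten ε κ M c y s j * pd s f y with hθ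
  have hθs : ∀ j, Sm x (θ j) := by
    intro j
    have h1 : SmOn U (θ j) := ContDiffOn.sum fun s _ =>
      ((hKs s j).mono hUM).mul (SmOn.pdS hU hfs s)
    exact h1.sm hU hx
  have hb : ∀ j, Set.EqOn (fun y => ∑ s, MvPolynomial.eval y (Bp ε κ c j s) * pd s f y)
      (fun y => wf ε κ y * wf ε κ y * θ j y) U := by
    intro j y hy
    simp only [hθ, Finset.mul_sum]
    refine Finset.sum_congr rfl fun s _ => ?_
    rw [Kten_apply c (hUM hy)]
    have := (hw y (hUM hy)).ne'
    field_simp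
  have hwS := sm_wf ε κ x
  have hdb : ∀ i j, pd i (fun y => ∑ s, MvPolynomial.eval y (Bp ε κ c j s) * pd s f y) x =
      2 * wf ε κ x * pd i (wf ε κ) x * θ j x + wf ε κ x * wf ε κ x * pd i (θ j) x := by
    intro i j
    rw [pd_eqOn hU (hb j) i hx, pd_mul_at (hwS.mul hwS) (hθs j), pd_mul_at hwS hwS]
    ring
  have hpw : ∀ i, MvPolynomial.eval x (MvPolynomial.pderiv i (Wp ε κ)) = pd i (wf ε κ) x := by
    intro i
    have : wf ε κ = fun x => MvPolynomial.eval x (Wp ε κ) := funext (wf_eq ε κ)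
    rw [this, pd_eval]
  have hcl' : pd i (θ j) x = pd j (θ i) x := hcl x hx i j
  have hbx : ∀ j, (∑ s, MvPolynomial.eval x (Bp ε κ c j s) * pd s f x) =
      wf ε κ x * wf ε κ x * θ j x := fun j => hb j hx
  rw [hdb, hdb, hpw, hpw, hbx, hbx, ← wf_eq, hcl']
  ring

lemma eval_aeval' {σ τ : Type*} (g : σ → MvPolynomial τ ℝ) (v : τ → ℝ) (P : MvPolynomial σ ℝ) :
    MvPolynomial.eval v (MvPolynomial.aeval g P) =
      MvPolynomial.eval (fun s => MvPolynomial.eval v (g s)) P := by
  induction P using MvPolynomial.induction_on with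
  | C a => simp
  | add p q hp hq => simp only [map_add, hp, hq]
  | mul_X p i hp => simp only [map_mul, hp, MvPolynomial.aeval_X, MvPolynomial.eval_X]

/-- Transfer of a generic property from coefficient arrays to the space of tensors. -/
lemma transfer {Y : Type*} [AddCommGroup Y] [Module ℝ Y] (T : (KI n → KI n → ℝ) →ₗ[ℝ] Y)
    (Φ : Y → Prop) (P : MvPolynomial (KI n × KI n) ℝ) (hP0 : P ≠ 0)
    (hP : ∀ c : KI n → KI n → ℝ, MvPolynomial.eval (fun ab : KI n × KI n => c ab.1 ab.2) P ≠ 0 →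
      Φ (T c)) :
    ∃ (d : ℕ) (b : Module.Basis (Fin d) ℝ (LinearMap.range T)) (Q : MvPolynomial (Fin d) ℝ),
      Q ≠ 0 ∧ ∀ K : LinearMap.range T, MvPolynomial.eval (b.repr K) Q ≠ 0 → Φ K := by
  classical
  obtain ⟨S, hS⟩ := LinearMap.exists_rightInverse_of_surjective T.rangeRestrict
    (LinearMap.range_rangeRestrict T)
  have hS' : ∀ K, T.rangeRestrict (S K) = K := fun K => LinearMap.congr_fun hS K
  obtain ⟨c₀, hc₀⟩ : ∃ c₀ : KI n × KI n → ℝ, MvPolynomial.eval c₀ P ≠ 0 := by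
    by_contra hall
    push Not at hall
    exact hP0 (MvPolynomial.funext fun x => by rw [hall x, map_zero])
  let c₁ : KI n → KI n → ℝ := fun a b => c₀ (a, b)
  let N₀ : KI n → KI n → ℝ := c₁ - S (T.rangeRestrict c₁)
  have hN₀ : T.rangeRestrict N₀ = 0 := by
    simp only [N₀, map_sub, hS', sub_self]
  let b := Module.finBasis ℝ (LinearMap.range T)
  let Q : MvPolynomial (Fin (Module.finrank ℝ (LinearMap.range T))) ℝ :=
    MvPolynomial.aeval (fun ab : KI n × KI n =>
      (∑ i, MvPolynomial.C (S (b i) ab.1 ab.2) * MvPolynomial.X i) +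
        MvPolynomial.C (N₀ ab.1 ab.2)) P
  have hQ : ∀ K : LinearMap.range T, MvPolynomial.eval (b.repr K) Q =
      MvPolynomial.eval (fun ab : KI n × KI n => (S K + N₀) ab.1 ab.2) P := by
    intro K
    have h1 : ∀ a a', S K a a' = ∑ i, S (b i) a a' * b.repr K i := by
      intro a a'
      have h2 : S K = ∑ i, b.repr K i • S (b i) := by
        conv_lhs => rw [← b.sum_repr K]
        rw [map_sum]
        simp only [map_smul]
      rw [h2]
      simp only [Finset.sum_apply, Pi.smul_apply, smul_eq_mul]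
      exact Finset.sum_congr rfl fun i _ => mul_comm _ _
    show MvPolynomial.eval (b.repr K) (MvPolynomial.aeval _ P) = _
    rw [eval_aeval']
    congr 2
    funext ab
    simp only [map_add, map_sum, map_mul, MvPolynomial.eval_C, MvPolynomial.eval_X,
      Pi.add_apply, h1]
  refine ⟨_, b, Q, ?_, ?_⟩
  · intro h0
    apply hc₀
    have h1 := hQ (T.rangeRestrict c₁)
    rw [h0, map_zero] at h1
    have h2 : S (T.rangeRestrict c₁) + N₀ = c₁ := by simp [N₀]
    rw [h2] at h1
    exact h1.symm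
  · intro K hK
    rw [hQ] at hK
    have h1 : T.rangeRestrict (S K + N₀) = K := by rw [map_add, hS', hN₀, add_zero]
    have h2 : T (S K + N₀) = K := congrArg (fun z : LinearMap.range T => (z : Y)) h1
    rw [← h2]
    exact hP (S K + N₀) hK

/-- In dimension two the Killing covectors are `(α - γ x₁, β + γ x₀)`. -/
lemma Xt_two (ε : Fin 2 → ℝ) (a : KI 2) : ∃ α β γ : ℝ, ∀ x : Fin 2 → ℝ,
    Xt ε a x 0 = α - γ * x 1 ∧ Xt ε a x 1 = β + γ * x 0 := by
  rcases a with k | ⟨k, l⟩
  · fin_cases k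
    · exact ⟨ε 0, 0, 0, fun x => by constructor <;> simp [Xt]⟩
    · exact ⟨0, ε 1, 0, fun x => by constructor <;> simp [Xt]⟩
  · fin_cases k <;> fin_cases l
    · exact ⟨0, 0, 0, fun x => by constructor <;> simp [Xt]⟩
    · exact ⟨0, 0, ε 0 * ε 1, fun x => by constructor <;> simp [Xt]⟩
    · exact ⟨0, 0, -(ε 0 * ε 1), fun x => by
        constructor
        · simp only [Xt]; simp; left; ring
        · simp only [Xt]; simp; left; ring⟩
    · exact ⟨0, 0, 0, fun x => by constructor <;> simp [Xt]⟩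

lemma contDiff_eval_omega {m : ℕ} (Q : MvPolynomial (Fin m) ℝ) :
    ContDiff ℝ ω (fun x : Fin m → ℝ => MvPolynomial.eval x Q) := by
  induction Q using MvPolynomial.induction_on with
  | C a => simpa using contDiff_const
  | add p q hp hq => simpa using hp.add hq
  | mul_X p i hp =>
    simp only [map_mul, MvPolynomial.eval_X]
    exact hp.mul (contDiff_apply ℝ ℝ i)

/-- In dimension two a generic Killing tensor has a nowhere locally constant conservation law. -/
theorem two_dim (ε : Fin 2 → ℝ) (hε : ∀ i, ε i = 1 ∨ ε i = -1) (κ : ℝ)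
    (M : Set (Fin 2 → ℝ)) (hM : IsOpen M) (hw : ∀ x ∈ M, 0 < wf ε κ x) :
    ∃ P : MvPolynomial (KI 2 × KI 2) ℝ, P ≠ 0 ∧ ∀ c : KI 2 → KI 2 → ℝ,
      MvPolynomial.eval (fun ab : KI 2 × KI 2 => c ab.1 ab.2) P ≠ 0 →
      ∃ f : (Fin 2 → ℝ) → ℝ, ContDiffOn ℝ ω f M ∧ IsConservationLaw (Kten ε κ M c) M f ∧
        ∀ U : Set (Fin 2 → ℝ), IsOpen U → U.Nonempty → U ⊆ M → ¬ ∃ t, ∀ x ∈ U, f x = t := by
  classical
  have hε2 : ∀ i, ε i * ε i = 1 := by
    intro i
    rcases hε i with h | h <;> rw [h] <;> norm_num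
  choose α β γ hX using Xt_two ε
  have hβ : β (Sum.inl 1) = ε 1 := by
    have := (hX (Sum.inl 1) 0).2
    simpa [Xt] using this.symm
  have hγ1 : γ (Sum.inl 1) = 0 := by
    have h1 := (hX (Sum.inl 1) 0).2
    have h2 := (hX (Sum.inl 1) (fun _ => 1)).2
    simp [Xt] at h1 h2
    linarith
  have hγ2 : γ (Sum.inr (0, 1)) = ε 0 * ε 1 := by
    have h1 := (hX (Sum.inr (0, 1)) 0).2
    have h2 := (hX (Sum.inr (0, 1)) (fun _ => 1)).2
    simp [Xt] at h1 h2
    linarith
  have hε1 : ε 1 ≠ 0 := fun h => by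
    have := hε2 1
    rw [h] at this
    simp at this
  have hε0 : ε 0 ≠ 0 := fun h => by
    have := hε2 0
    rw [h] at this
    simp at this
  refine ⟨∑ a, ∑ b, MvPolynomial.C (-(γ a * β b + β a * γ b)) * MvPolynomial.X (a, b), ?_, ?_⟩
  · intro h0
    have h1 := congrArg (MvPolynomial.eval
      (Pi.single (Sum.inl 1, Sum.inr (0, 1)) 1 : KI 2 × KI 2 → ℝ)) h0
    rw [map_zero] at h1
    simp only [map_sum, map_mul, MvPolynomial.eval_C, MvPolynomial.eval_X] at h1
    rw [Finset.sum_eq_single (Sum.inl 1), Finset.sum_eq_single (Sum.inr (0, 1))] at h1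
    · rw [Pi.single_eq_same, hβ, hγ1, hγ2] at h1
      have : ε 1 * (ε 0 * ε 1) ≠ 0 := mul_ne_zero hε1 (mul_ne_zero hε0 hε1)
      apply this
      linarith
    · intro b _ hb
      rw [Pi.single_eq_of_ne, mul_zero]
      intro h; exact hb (Prod.mk.inj h).2
    · intro h; exact absurd (Finset.mem_univ _) h
    · intro a _ ha
      refine Finset.sum_eq_zero fun b _ => ?_
      rw [Pi.single_eq_of_ne, mul_zero]
      intro h; exact ha (Prod.mk.inj h).1
    · intro h; exact absurd (Finset.mem_univ _) h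
  · intro c hc
    simp only [map_sum, map_mul, MvPolynomial.eval_C, MvPolynomial.eval_X] at hc
    set pa : ℝ := ∑ a, ∑ b, c a b * (2 * (α a * α b)) with hpa
    set pb' : ℝ := ∑ a, ∑ b, c a b * (α a * γ b + γ a * α b) with hpb
    set pe : ℝ := ∑ a, ∑ b, c a b * (2 * (γ a * γ b)) with hpe
    set ph : ℝ := ∑ a, ∑ b, c a b * (α a * β b + β a * α b) with hph
    set pc : ℝ := ∑ a, ∑ b, c a b * (2 * (β a * β b)) with hpc
    set pd' : ℝ := ∑ a, ∑ b, c a b * (-(γ a * β b + β a * γ b)) with hpd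
    have hd0 : pd' ≠ 0 := by
      intro h0
      apply hc
      rw [← h0, hpd]
      exact Finset.sum_congr rfl fun a _ => Finset.sum_congr rfl fun b _ => mul_comm _ _
    have Q00 : ∀ x : Fin 2 → ℝ, Tq ε c x 0 0 = pa - 2 * pb' * x 1 + pe * x 1 ^ 2 := by
      intro x
      simp only [hpa, hpb, hpe, Finset.mul_sum, Finset.sum_mul, ← Finset.sum_add_distrib,
        ← Finset.sum_sub_distrib, Tq]
      refine Finset.sum_congr rfl fun a _ => Finset.sum_congr rfl fun b _ => ?_
      rw [(hX a x).1, (hX b x).1]; ring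
    have Q01 : ∀ x : Fin 2 → ℝ, Tq ε c x 0 1 = ph + pb' * x 0 + pd' * x 1 - pe * x 0 * x 1 := by
      intro x
      simp only [hph, hpb, hpd, hpe, Finset.sum_mul, ← Finset.sum_add_distrib,
        ← Finset.sum_sub_distrib, Tq]
      refine Finset.sum_congr rfl fun a _ => Finset.sum_congr rfl fun b _ => ?_
      rw [(hX a x).1, (hX b x).1, (hX a x).2, (hX b x).2]; ring
    have Q11 : ∀ x : Fin 2 → ℝ, Tq ε c x 1 1 = pc - 2 * pd' * x 0 + pe * x 0 ^ 2 := by
      intro x
      simp only [hpc, hpd, hpe, Finset.mul_sum, Finset.sum_mul, ← Finset.sum_add_distrib,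
        ← Finset.sum_sub_distrib, Tq]
      refine Finset.sum_congr rfl fun a _ => Finset.sum_congr rfl fun b _ => ?_
      rw [(hX a x).2, (hX b x).2]; ring
    clear_value pa pb' pe ph pc pd'
    -- the polynomials
    let W : MvPolynomial (Fin 2) ℝ := 1 + MvPolynomial.C κ * (MvPolynomial.C (ε 0) *
      MvPolynomial.X 0 ^ 2 + MvPolynomial.C (ε 1) * MvPolynomial.X 1 ^ 2)
    let N : MvPolynomial (Fin 2) ℝ := MvPolynomial.C (ε 0) * (MvPolynomial.C pa -
        2 * MvPolynomial.C pb' * MvPolynomial.X 1 + MvPolynomial.C pe * MvPolynomial.X 1 ^ 2) +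
      MvPolynomial.C (ε 1) * (MvPolynomial.C pc - 2 * MvPolynomial.C pd' * MvPolynomial.X 0 +
        MvPolynomial.C pe * MvPolynomial.X 0 ^ 2) +
      MvPolynomial.C κ * (MvPolynomial.C pa * MvPolynomial.X 0 ^ 2 +
        2 * MvPolynomial.C ph * MvPolynomial.X 0 * MvPolynomial.X 1 +
        MvPolynomial.C pc * MvPolynomial.X 1 ^ 2)
    let R00 : MvPolynomial (Fin 2) ℝ := MvPolynomial.C (ε 0) * (MvPolynomial.C pa -
        2 * MvPolynomial.C pb' * MvPolynomial.X 1 + MvPolynomial.C pe * MvPolynomial.X 1 ^ 2) +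
      MvPolynomial.C κ * MvPolynomial.X 0 * (MvPolynomial.C pa * MvPolynomial.X 0 -
        MvPolynomial.C pb' * MvPolynomial.X 0 * MvPolynomial.X 1 +
        MvPolynomial.C ph * MvPolynomial.X 1 + MvPolynomial.C pd' * MvPolynomial.X 1 ^ 2)
    let R10 : MvPolynomial (Fin 2) ℝ := MvPolynomial.C (ε 1) * (MvPolynomial.C ph +
        MvPolynomial.C pb' * MvPolynomial.X 0 + MvPolynomial.C pd' * MvPolynomial.X 1 -
        MvPolynomial.C pe * MvPolynomial.X 0 * MvPolynomial.X 1) +
      MvPolynomial.C κ * MvPolynomial.X 1 * (MvPolynomial.C pa * MvPolynomial.X 0 -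
        MvPolynomial.C pb' * MvPolynomial.X 0 * MvPolynomial.X 1 +
        MvPolynomial.C ph * MvPolynomial.X 1 + MvPolynomial.C pd' * MvPolynomial.X 1 ^ 2)
    let R01 : MvPolynomial (Fin 2) ℝ := MvPolynomial.C (ε 0) * (MvPolynomial.C ph +
        MvPolynomial.C pb' * MvPolynomial.X 0 + MvPolynomial.C pd' * MvPolynomial.X 1 -
        MvPolynomial.C pe * MvPolynomial.X 0 * MvPolynomial.X 1) +
      MvPolynomial.C κ * MvPolynomial.X 0 * (MvPolynomial.C ph * MvPolynomial.X 0 +
        MvPolynomial.C pb' * MvPolynomial.X 0 ^ 2 + MvPolynomial.C pc * MvPolynomial.X 1 -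
        MvPolynomial.C pd' * MvPolynomial.X 0 * MvPolynomial.X 1)
    let R11 : MvPolynomial (Fin 2) ℝ := MvPolynomial.C (ε 1) * (MvPolynomial.C pc -
        2 * MvPolynomial.C pd' * MvPolynomial.X 0 + MvPolynomial.C pe * MvPolynomial.X 0 ^ 2) +
      MvPolynomial.C κ * MvPolynomial.X 1 * (MvPolynomial.C ph * MvPolynomial.X 0 +
        MvPolynomial.C pb' * MvPolynomial.X 0 ^ 2 + MvPolynomial.C pc * MvPolynomial.X 1 -
        MvPolynomial.C pd' * MvPolynomial.X 0 * MvPolynomial.X 1)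
    let P0 : MvPolynomial (Fin 2) ℝ :=
      R00 * (W * MvPolynomial.pderiv 0 N - N * MvPolynomial.pderiv 0 W) +
        R10 * (W * MvPolynomial.pderiv 1 N - N * MvPolynomial.pderiv 1 W)
    let P1 : MvPolynomial (Fin 2) ℝ :=
      R01 * (W * MvPolynomial.pderiv 0 N - N * MvPolynomial.pderiv 0 W) +
        R11 * (W * MvPolynomial.pderiv 1 N - N * MvPolynomial.pderiv 1 W)
    have hid : W * (MvPolynomial.pderiv 0 P1 - MvPolynomial.pderiv 1 P0) =
        3 * (MvPolynomial.pderiv 0 W * P1 - MvPolynomial.pderiv 1 W * P0) :=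
      two_dim_identity pa pb' pc pd' pe ph κ (ε 0) (ε 1) (hε 0) (hε 1) W N R00 R10 R01 R11 P0 P1
        rfl rfl rfl rfl rfl rfl rfl rfl
    have hWw : ∀ x, MvPolynomial.eval x W = wf ε κ x := by
      intro x
      simp [W, wf, Fin.sum_univ_two]
    have hK : ∀ x ∈ M, ∀ s j, Kten ε κ M c x s j =
        ((if s = 0 then ε s else 0) * Tq ε c x 0 j + (if s = 1 then ε s else 0) * Tq ε c x 1 j +
          κ * x s * (x 0 * Tq ε c x 0 j + x 1 * Tq ε c x 1 j)) / wf ε κ x := by
      intro x hx s j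
      have hw0 := (hw x hx).ne'
      have h2 : Gi ε κ x * metric ε κ x = 1 := mul_eq_one_comm.mp (metric_mul_Gi hε2 hw0)
      have h3 : Kten ε κ M c x = Gi ε κ x * (metric ε κ x * Kten ε κ M c x) := by
        rw [← Matrix.mul_assoc, h2, Matrix.one_mul]
      rw [h3, Matrix.mul_apply, Fin.sum_univ_two, metric_mul_Kten c hx hw0,
        metric_mul_Kten c hx hw0]
      simp only [Gi, Matrix.of_apply]
      by_cases h0 : s = 0 <;> by_cases h1 : s = 1 <;> simp [h0, h1] <;> field_simp <;> ring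
    have hK00 : ∀ x ∈ M, Kten ε κ M c x 0 0 = MvPolynomial.eval x R00 / wf ε κ x := by
      intro x hx
      rw [hK x hx, Q00, Tq_symm ε c x 1 0, Q01]
      simp [R00]
      ring
    have hK10 : ∀ x ∈ M, Kten ε κ M c x 1 0 = MvPolynomial.eval x R10 / wf ε κ x := by
      intro x hx
      rw [hK x hx, Q00, Tq_symm ε c x 1 0, Q01]
      simp [R10]
      ring
    have hK01 : ∀ x ∈ M, Kten ε κ M c x 0 1 = MvPolynomial.eval x R01 / wf ε κ x := by
      intro x hx
      rw [hK x hx, Q01, Q11]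
      simp [R01]
      ring
    have hK11 : ∀ x ∈ M, Kten ε κ M c x 1 1 = MvPolynomial.eval x R11 / wf ε κ x := by
      intro x hx
      rw [hK x hx, Q01, Q11]
      simp [R11]
      ring
    let f : (Fin 2 → ℝ) → ℝ := fun x => MvPolynomial.eval x N / MvPolynomial.eval x W
    have hWne : ∀ x ∈ M, MvPolynomial.eval x W ≠ 0 := fun x hx => by
      rw [hWw]; exact (hw x hx).ne'
    -- derivative of a quotient of polynomials
    have hquot : ∀ (A B : MvPolynomial (Fin 2) ℝ) (x : Fin 2 → ℝ), MvPolynomial.eval x B ≠ 0 →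
        ∀ i, pd i (fun y => MvPolynomial.eval y A / MvPolynomial.eval y B) x =
          (MvPolynomial.eval x (MvPolynomial.pderiv i A) * MvPolynomial.eval x B -
            MvPolynomial.eval x A * MvPolynomial.eval x (MvPolynomial.pderiv i B)) /
            MvPolynomial.eval x B ^ 2 := by
      intro A B x hB i
      have hA' : Sm x (fun y => MvPolynomial.eval y A) := (contDiff_eval A).contDiffAt
      have hB' : Sm x (fun y => MvPolynomial.eval y B) := (contDiff_eval B).contDiffAt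
      have hq : Sm x (fun y => MvPolynomial.eval y A / MvPolynomial.eval y B) := hA'.div hB' hB
      have hev : (fun y => (MvPolynomial.eval y A / MvPolynomial.eval y B) *
          MvPolynomial.eval y B) =ᶠ[𝓝 x] fun y => MvPolynomial.eval y A := by
        filter_upwards [hB'.continuousAt.eventually_ne hB] with y hy
        field_simp
      have h1 := (pd_congr hev i).eq_of_nhds
      rw [pd_mul_at hq hB', pd_eval, pd_eval] at h1
      simp only at h1
      rw [eq_div_iff (pow_ne_zero 2 hB)]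
      field_simp at h1
      linear_combination h1
    have hθ0 : ∀ x ∈ M, (∑ s, Kten ε κ M c x s 0 * pd s f x) =
        MvPolynomial.eval x P0 / MvPolynomial.eval x (W ^ 3) := by
      intro x hx
      rw [Fin.sum_univ_two, hquot N W x (hWne x hx), hquot N W x (hWne x hx), hK00 x hx, hK10 x hx,
        ← hWw]
      simp only [P0, map_add, map_mul, map_sub, map_pow]
      have := hWne x hx
      field_simp
    have hθ1 : ∀ x ∈ M, (∑ s, Kten ε κ M c x s 1 * pd s f x) =
        MvPolynomial.eval x P1 / MvPolynomial.eval x (W ^ 3) := by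
      intro x hx
      rw [Fin.sum_univ_two, hquot N W x (hWne x hx), hquot N W x (hWne x hx), hK01 x hx, hK11 x hx,
        ← hWw]
      simp only [P1, map_add, map_mul, map_sub, map_pow]
      have := hWne x hx
      field_simp
    have hmain : ∀ x ∈ M, pd 0 (fun y => ∑ s, Kten ε κ M c y s 1 * pd s f y) x =
        pd 1 (fun y => ∑ s, Kten ε κ M c y s 0 * pd s f y) x := by
      intro x hx
      rw [pd_eqOn hM hθ1 0 hx, pd_eqOn hM hθ0 1 hx, hquot _ _ x, hquot _ _ x]
      · have hidx := congrArg (MvPolynomial.eval x) hid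
        simp only [map_mul, map_sub, map_ofNat] at hidx
        simp only [map_pow, MvPolynomial.pderiv_pow, map_mul, map_natCast]
        have hne := hWne x hx
        rw [div_left_inj' (pow_ne_zero 2 (pow_ne_zero 3 hne))]
        push_cast
        linear_combination MvPolynomial.eval x W ^ 2 * hidx
      · rw [map_pow]; exact pow_ne_zero 3 (hWne x hx)
      · rw [map_pow]; exact pow_ne_zero 3 (hWne x hx)
    refine ⟨f, ?_, ?_, ?_⟩
    · exact (contDiff_eval_omega N).contDiffOn.div (contDiff_eval_omega W).contDiffOn hWne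
    · intro x hx i j
      show pd i (fun y => ∑ s, Kten ε κ M c y s j * pd s f y) x =
        pd j (fun y => ∑ s, Kten ε κ M c y s i * pd s f y) x
      fin_cases i <;> fin_cases j
      · rfl
      · exact hmain x hx
      · exact (hmain x hx).symm
      · rfl
    · rintro U hUo ⟨y, hy⟩ hUM ⟨t, ht⟩
      have hzero : N - MvPolynomial.C t * W = 0 := by
        obtain ⟨r, hr, hball⟩ := Metric.isOpen_iff.mp hUo y hy
        refine MvPolynomial.funext_set (fun i => Set.Ioo (y i - r) (y i + r))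
          (fun i => Set.Ioo_infinite (by linarith)) ?_
        intro z hz
        have hzb : z ∈ Metric.ball y r := by
          rw [Metric.mem_ball, dist_pi_lt_iff hr]
          intro i
          have := hz i (Set.mem_univ i)
          rw [Real.dist_eq, abs_lt]
          constructor <;> linarith [this.1, this.2]
        have hzU := hball hzb
        have h1 : MvPolynomial.eval z N / MvPolynomial.eval z W = t := ht z hzU
        rw [div_eq_iff (hWne z (hUM hzU))] at h1
        rw [map_sub, map_mul, MvPolynomial.eval_C, h1, sub_self, map_zero]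
      have h2 := congrArg (fun A => MvPolynomial.eval (0 : Fin 2 → ℝ)
        (MvPolynomial.pderiv 0 A)) hzero
      have x01 : MvPolynomial.pderiv 0 (MvPolynomial.X 1 : MvPolynomial (Fin 2) ℝ) = 0 :=
        MvPolynomial.pderiv_X_of_ne (by decide)
      have d2 : MvPolynomial.pderiv 0 (2 : MvPolynomial (Fin 2) ℝ) = 0 := by
        have : (2 : MvPolynomial (Fin 2) ℝ) = MvPolynomial.C 2 := by rw [map_ofNat]
        rw [this, MvPolynomial.pderiv_C]
      simp [N, W, x01, d2] at h2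
      rcases h2 with h2 | h2
      · exact hε1 h2
      · rcases h2 with h2 | h2
        · rw [map_ofNat] at h2
          norm_num at h2
        · exact hd0 h2

/-- **Main theorem.** Let `n ≥ 2` and let `g` be the metric of constant curvature `κ` and
signature `ε`, in Beltrami coordinates, on a connected open set `M`. The `(1,1)`-Killing tensors of
`g` on `M` form a finite dimensional vector space `V`, and there is a proper algebraic subset
(the zero set of a non-zero polynomial `P` in linear coordinates on `V`) such that the following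
holds for every Killing tensor `K` outside of it. If `n ≥ 3`, all local conservation laws of `K`,
on all connected open subsets of `M`, are constant. If `n = 2`, `K` has a real analytic
conservation law on `M` which is not constant on any non-empty open subset. -/
theorem result (n : ℕ) (hn : 2 ≤ n) (ε : Fin n → ℝ) (hε : ∀ i, ε i = 1 ∨ ε i = -1) (κ : ℝ)
    (M : Set (Fin n → ℝ)) (hM : IsOpen M) (hMc : IsConnected M) (hw : ∀ x ∈ M, 0 < w ε κ x) :
    ∃ V : Submodule ℝ ((Fin n → ℝ) → Matrix (Fin n) (Fin n) ℝ),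
      (∀ K, K ∈ V ↔ IsKillingTensor (metric ε κ) M K ∧ ∀ x, x ∉ M → K x = 0) ∧
      ∃ (d : ℕ) (b : Module.Basis (Fin d) ℝ V) (P : MvPolynomial (Fin d) ℝ), P ≠ 0 ∧
        ∀ K : V, MvPolynomial.eval (b.repr K) P ≠ 0 →
          (3 ≤ n → ∀ U : Set (Fin n → ℝ), IsOpen U → IsPreconnected U → U ⊆ M →
            ∀ f : (Fin n → ℝ) → ℝ, ContDiffOn ℝ ∞ f U →
              IsConservationLaw (K : (Fin n → ℝ) → Matrix (Fin n) (Fin n) ℝ) U f →
              ∃ a, ∀ x ∈ U, f x = a) ∧
          (n = 2 → ∃ f : (Fin n → ℝ) → ℝ, ContDiffOn ℝ ω f M ∧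
            IsConservationLaw (K : (Fin n → ℝ) → Matrix (Fin n) (Fin n) ℝ) M f ∧
            ∀ U : Set (Fin n → ℝ), IsOpen U → U.Nonempty → U ⊆ M →
              ¬ ∃ a, ∀ x ∈ U, f x = a) := by
  classical
  have hε2 : ∀ i, ε i * ε i = 1 := by
    intro i
    rcases hε i with h | h <;> rw [h] <;> norm_num
  have hε0 : ∀ i, ε i ≠ 0 := fun i h => by
    have := hε2 i
    rw [h] at this
    simp at this
  have hw' : ∀ x ∈ M, 0 < wf ε κ x := hw
  refine ⟨LinearMap.range (KtenL ε κ M), ?_, ?_⟩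
  · intro K
    constructor
    · rintro ⟨c, rfl⟩
      exact ⟨Kten_isKilling hε2 hM hw' c, fun x hx => Kten_off c hx⟩
    · rintro ⟨h1, h2⟩
      obtain ⟨c, hc⟩ := exists_Kten hε2 hM hMc.isPreconnected hw' h1 h2
      exact ⟨c, hc.symm⟩
  · by_cases h2 : n = 2
    · subst h2
      obtain ⟨P, hP0, hP⟩ := two_dim ε hε κ M hM hw'
      obtain ⟨d, b, Q, hQ0, hQ⟩ := transfer (KtenL ε κ M)
        (fun K => ∃ f : (Fin 2 → ℝ) → ℝ, ContDiffOn ℝ ω f M ∧ IsConservationLaw K M f ∧
          ∀ U : Set (Fin 2 → ℝ), IsOpen U → U.Nonempty → U ⊆ M → ¬ ∃ a, ∀ x ∈ U, f x = a)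
        P hP0 hP
      exact ⟨d, b, Q, hQ0, fun K hK => ⟨fun h => absurd h (by norm_num), fun _ => hQ K hK⟩⟩
    · obtain ⟨P, hP0, hP⟩ := main_poly (by omega : 3 ≤ n) ε hε0 κ
      obtain ⟨d, b, Q, hQ0, hQ⟩ := transfer (KtenL ε κ M)
        (fun K => ∀ U : Set (Fin n → ℝ), IsOpen U → IsPreconnected U → U ⊆ M →
            ∀ f : (Fin n → ℝ) → ℝ, ContDiffOn ℝ ∞ f U → IsConservationLaw K U f →
              ∃ a, ∀ x ∈ U, f x = a)
        P hP0 (fun c hc U hU hUc hUM f hf hcl => hP c hc U hU hUc f hf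
          (cleared_eq hw' c (Kten_isKilling hε2 hM hw' _).smooth hU hUM hf hcl))
      exact ⟨d, b, Q, hQ0, fun K hK => ⟨fun _ => hQ K hK, fun h => absurd h h2⟩⟩

end Pool.H31.MV.GenericKilling
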